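import Pool.Agent.VFPP.Main

/-!
# A Bloch-Beilinson filtration on the zero-cycles of products of Calabi-Yau fibre products

Let `k` be an algebraically closed field of characteristic `0`. We consider the Calabi-Yau varieties
`X` (with canonical singularities) of the class `CYF`: `X` is of dimension `N + 1`, over the line with
coordinates `(s₀ : s₁)` it is given by the equations

  `y_b ² = ∏ z_i (x_i ³ + A_i(s) x_i z_i ² + B_i(s) z_i ³)`, `b < r`,

where the product is over the indices `i` of the block `b`. Here `A_i` and `B_i` are binary forms of
degrees `2 d_i` and `3 d_i` with `d_i ≥ 0`, the sum of the `d_i` is `4`, and its partial sums over the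
blocks are even and positive; the discriminants are not zero, and
`∑ i, min (3 ord A_i) (2 ord B_i) < 12` at all points of the line. Examples:

* `N = r = 1`: all elliptic K3 surfaces with section (minimal Weierstrass equations), 18 moduli;
* `N = r = 2`, `d = (2, 2)`: all Schoen Calabi-Yau threefolds, i.e. the fibre products
  `S₀ ×_(ℙ¹) S₁` of two rational elliptic surfaces with section over the same line, 19 moduli;
* `N = 2`, `r = 1`: the threefolds `y ² = f₀(s, x₀) f₁(s, x₁)` with `d = (2, 2)` or `(3, 1)`;
* `N = 3`: fourfolds, `d = (2, 1, 1)`, 20 moduli; `N = 4`: fivefolds, `d = (1, 1, 1, 1)`, 21 moduli,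
  e.g. for `r = 1` the double coverings of `ℙ ⁵` which are branched along four cubic cones;
* `r = 1`, `d = (4, 0, …, 0)`: the quotients `(S × E_1 × ⋯ × E_l) / G` of dimension `l + 2`, where `S` is
  an elliptic K3 surface with section, the `E_j` are elliptic curves, and `G` is the group of all
  even changes of signs (`l = 1`: Borcea-Voisin threefolds, `l > 1`: Cynk-Hulek), `18 + l` moduli;
  in the same way constant elliptic curves can be added to all other examples.

Let `X 0, …, X (m - 1)` be such varieties, equal or different, and let
`F^ν CH₀(X 0 × ⋯ × X (m - 1))_ℚ` be generated by the products of `m` zero-cycles on the factors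
for which the dimensions of the factors with a zero-cycle of degree zero have sum at least `ν`.
This filtration has the properties 1-4 of a Bloch-Beilinson filtration for all correspondences
which are combinations of morphisms between such products whose components are constant or a factor
followed by changes of the signs of the coordinates `y_b`. (On a resolution of `X` there are no
holomorphic `p`-forms for `0 < p < dim X`, and the form of top degree is unique up to a factor. The
resolution has the same Chow group of zero-cycles, since the fibres over canonical singularities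
are rationally chain connected.)

For `m = 2`, `X 0 = X 1 = X`, `n = dim X` and the correspondence `γ = id - (-1) ^ n swap`, which is
zero on the holomorphic `2 n`-forms, the properties 4 and 2 say that `a × b = (-1) ^ n b × a` in
`CH₀(X × X)_ℚ` for zero-cycles `a` and `b` of degree zero on `X`. This is Voisin's conjecture on
zero-cycles (1996) for all these Calabi-Yau varieties; it is the main point.

Proof. The class `CL = {p} × {q} + (-1) ^ N {q} × {p}`, where `{p}` is the alternating sum over all
changes of signs, is a function of `s, t` and of points `(Z_i, Ξ_i, Θ_i)` on the Jacobian fibrations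
`Θ_i ² = 4 Ξ_i ³ - 12 A_i(s) A_i(t) Ξ_i + 54 B_i(s) B_i(t) - (Z_i + Z_i')`, `Z_i Z_i' = Δ_i(s) Δ_i(t)`,
which changes its sign if one `Z_i` is exchanged with `Z_i'`. So it is a function on a double
covering of a fibration over the symmetric square `ℙ ²` of the line, which is a Fano variety. Counting
constants (37 coefficients, 36 equations) one finds rational curves through all of its points along
which the class can be moved to a point where it is zero.
-/

set_option autoImplicit false

namespace Pool.Agent.Results.MP_08891c_ag.CalabiYauProducts

universe u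

open Pool.Agent.VFPP

theorem result {k : Type u} [Field k] [IsAlgClosed k] [CharZero k] :
    -- a decreasing filtration of the zero-cycles modulo rational equivalence
    (∀ (m : ℕ) (X : Fin m → CYF k) (ν : ℕ), ratEqP X ≤ Fil X ν ∧ Fil X (ν + 1) ≤ Fil X ν) ∧
    -- 1: `F⁰` is everything, `F¹ = F²` is the part of degree zero (the Albanese variety is zero)
    (∀ (m : ℕ) (X : Fin m → CYF k) (z : Pts m k →₀ ℚ), z ∈ Fil X 0 ↔ ∀ p ∈ z.support, OnP X p) ∧
    (∀ (m : ℕ) (X : Fin m → CYF k) (z : Pts m k →₀ ℚ), z ∈ Fil X 1 ↔
      (∀ p ∈ z.support, OnP X p) ∧ (z.sum fun _ c => c) = 0) ∧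
    (∀ (m : ℕ) (X : Fin m → CYF k), Fil X 2 = Fil X 1) ∧
    -- 2: `F^(dim + 1) = 0`
    (∀ (m : ℕ) (X : Fin m → CYF k), Fil X (dimS X Finset.univ + 1) = ratEqP X) ∧
    -- 3: correspondences respect the filtration
    (∀ (m m' : ℕ) (X : Fin m → CYF k) (Y : Fin m' → CYF k) (ν : ℕ) (γ : Mor X Y →₀ ℚ),
      (Fil X ν).map (pushM γ) ≤ Fil Y ν) ∧
    -- 4: a correspondence which is zero on the holomorphic `ν`-forms is zero on `gr^ν`
    (∀ (m m' : ℕ) (X : Fin m → CYF k) (Y : Fin m' → CYF k) (ν : ℕ) (γ : Mor X Y →₀ ℚ),
      KillsForms γ ν → (Fil X ν).map (pushM γ) ≤ Fil Y (ν + 1)) :=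
  ⟨fun _ X ν => ⟨Fil_ge X ν, Fil_anti X ν⟩, fun _ X z => Fil_zero X z, fun _ X z => Fil_one X z,
    fun _ X => Fil_two X, fun _ X => Fil_top X, fun _ _ _ _ ν γ => Fil_map γ ν,
    fun _ _ _ _ ν γ h => Fil_grad γ ν h⟩

end Pool.Agent.Results.MP_08891c_ag.CalabiYauProducts
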