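import Pool.Agent.CUB.Main

/-!
# One-cycles on smooth cubic fourfolds are finite-dimensional

For every smooth cubic fourfold `X` over an algebraically closed field `k` of characteristic zero
there is `N₀` such that for all `N ≥ N₀` and all one-cycles `z j` of degree zero, which are
combinations of lines, the alternating sum of the products `z τ(1) × ... × z τ(N)` is a combination
of the relations: rational equivalences of families of `N` lines, and the replacement of one plane
section consisting of three lines by another one in one factor.
-/

set_option autoImplicit false

namespace Pool.Agent.Results.MP_08891c_ag.CubicFourfolds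

open Pool.Agent.CUB

theorem result {k : Type} [Field k] [IsAlgClosed k] [CharZero k] {F : MvPolynomial (Fin 6) k}
    (hF : Smooth F) : ∃ N₀ : ℕ, ∀ N ≥ N₀, ∀ z : Fin N → (Ln F k →₀ ℚ),
      (∀ j, ((z j).sum fun _ a => a) = 0) → alt z ∈ Rel F N :=
  main hF

end Pool.Agent.Results.MP_08891c_ag.CubicFourfolds
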