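import Pool.Agent.GTC.Main

/-!
# Zero-cycles and correspondences from families of curves

`X` is a projective variety over an algebraically closed field `k` of characteristic zero. For
`j = 1, ..., s` let `L_j` be the function field of a curve `C_j` of genus `g_j` over `k`,
`S_j : y ² = D_m(x, f) + B` a family of curves over `C_j` with `m ≥ 3`, where `D_m` is the Dickson
polynomial, `D_m(w + f / w, f) = w ^ m + (f / w) ^ m`, and `Φ_j` a correspondence from `S_j` to `X`,
given by the Chow form `G(x) + y H(x)` of the image of a point `(x, y)`. For `m = 3` the family is an
arbitrary elliptic curve `y ² = x ³ - 3 f x + B` over `L_j`. Let `N_j + 1 = (m - 2) a_j + g_j`, where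
`a_j > 0` is the degree of a divisor `A` with `div f + 4 A ≥ 0` and `div B + 2 m A ≥ 0`. For `m = 3` and the
smallest `A` this is the geometric genus of the elliptic surface `S_j`; for `m ≥ 5` and general `f` and
`B` it is the dimension of the space of 2-forms on `S_j` in the eigenspace for `2 cos(2 π / m)` of the
real multiplication on the Jacobians of the fibres.

Let `R` be a field of characteristic zero and `T_j` one of the following spaces of zero-cycles on `X`
with coefficients in `R`.

* `Eig`: the cycles `∑ b, ω ^ (- b) Φ_j(x_b, y)`, where `ω ^ m = 1`, `ω ² ≠ 1`, and `(x_b, y)` are the points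
  of a fibre with `x_b = ξ ^ b W + f / (ξ ^ b W)`, `b = 0, ..., m - 1`. Here `M_j = N_j`.
* `Ker`: the images `Φ_j(z)` of the cycles `z` on the family whose image in the Chow group of `C_j` with
  coefficients in `R` is zero. Here `M_j = [(m - 1) / 2] N_j`.
* `Deg0`: if some multisection of `S_j` has a constant image in `CH_0(X)`, the images of all cycles of
  degree zero. Here `M_j = [(m - 1) / 2] N_j`.

If `β` is an element of the group algebra of the symmetric group `S_r` which kills the tensors of
degree `r` of a vector space of dimension `∑ M_j`, then `β` kills, in `CH_0(X ^ r) ⊗ R`, the exterior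
products of all cycles in `∑ T_j`. The function `B ² / f ^ m` is assumed not to be constant; for `Ker`
and `Deg0` and `m = 3` it is sufficient that the elliptic curve has bad reduction at some place.

## The proof

For one family and a map to `X` instead of a correspondence this is proved in `GT` and `GTM`: the
fibres are covered by curves whose points are the sides (matrices of degree one) of a polygon, two
neighbouring sides can be exchanged by refactorisation of the product of two matrices
(`TInf/Recut`, `DK/Recut`), so that the alternating sum of classes in `N + 1` fibres only depends on the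
product of all matrices; the condition on this product is a system of polynomial equations which
has, by Riemann's inequality and Krull's theorem, a rational curve of solutions through a given
solution, and at some point of this rational curve the class is zero.

A correspondence of degree `e` is a map to the symmetric power `Sy X e` of `X`, a projective variety
whose points are the Chow forms of `e` points of `X` (elimination: `GTC/ElA`, ..., `GTC/ElD`; the linear
factors of a Chow form are unique: `GTC/Uniq`). The transfer `[P_1 + ... + P_e] ↦ [P_1] + ... + [P_e]`
preserves rational equivalence, also on products (`GTC/TrB`). So the alternating products of cycles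
in the spaces `T_j` vanish, and the theorem follows from the theory of the symmetric group
(`GTC/KlA`). The spaces `Ker` and `Deg0` are reduced to differences of two points of one fibre by the
multisection `x = t` for a general constant `t` (`GTC/CorD`, `GTC/CorE`, `GTC/CorF`).
-/

set_option autoImplicit false

noncomputable section

open Pool.Agent.ZCyc Pool.Agent.Dess Pool.Agent.TInc Pool.Agent.GT Pool.Agent.GTM Pool.Agent.GTC

/-- **Zero-cycles and correspondences from families of curves.** -/
theorem Pool.Agent.Results.MP_08891c_ag.CurveCorrespondences.result
    {k : Type} [Field k] [IsAlgClosed k] [CharZero k] {n : ℕ}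
    {X : Set (MvPolynomial (Fin (n + 1)) k)} (hX : Hom X) {R : Type} [Field R] [CharZero R]
    {s : ℕ} {L : Fin s → Type} [∀ j, Field (L j)] [∀ j, Algebra k (L j)]
    (hL : ∀ j, IsCurve k (L j)) {Φ : ∀ j, Cor (L j) n} (hΦ : ∀ j, (Φ j).Ok X)
    {N : Fin s → ℕ} (hN : ∀ j, (Φ j).Bound (hL j) (N j)) {M : Fin s → ℕ}
    {T : Fin s → Submodule R (Pt X k →₀ R)} (hT : ∀ j, (Φ j).Piece R X (hL j) (N j) (M j) (T j))
    {r : ℕ} {β : Equiv.Perm (Fin r) → R} (hβ : ZIso.KillsTensors (∑ j, M j) β)
    (z : Fin r → (Pt X k →₀ R)) (hz : ∀ i, z i ∈ (⨆ j, T j) ⊔ RatR1 R X) :
    ∑ τ : Equiv.Perm (Fin r), β τ • extR (fun i => z (τ i)) ∈ RatR R X (Fin r) :=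
  main_cor hX hL hΦ hN hT hβ z hz
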