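import Pool.Agent.EFC.FMain
import Pool.Agent.EFC.FinI
import Pool.Agent.EFC.CurveCore
import Pool.Agent.TInc.Riem

/-!
# A Bloch-Beilinson filtration on the zero-cycles of products of curves and of varieties over curves

Let `k` be an algebraically closed field of characteristic `0`. We consider the following class `EC` of
varieties: all smooth projective curves `C` over `k` (given by their function fields `L`), and all
varieties `X` of dimension `N + 1` which are given by equations

  `y_b ² = ∏ z_i (x_i ³ + A_i x_i z_i ² + B_i z_i ³)`, `b < r`,

over a curve `C`, where the product is over the indices `i` of the block `b`. Here `D_i` are divisors on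
`C`, `A_i` and `B_i` are sections of `O(2 D_i)` and `O(3 D_i)`, the sums of the `D_i` over the blocks are
divisible by `2` and have positive degrees, the discriminants are not zero, and
`∑ i, min (3 ord A_i) (2 ord B_i) < 12` at all points of `C` (canonical singularities). Examples:

* `N = r = 0`: all smooth projective curves of arbitrary genus;
* `N = r = 1`: all elliptic surfaces with section over any curve `C` which have a singular fibre
  (minimal Weierstrass equations with `D = 2 D'`, `deg D' = χ(O_X) > 0`; `p_g = deg D' + g - 1`);
* `N = r`: all fibre products `S_1 ×_C ⋯ ×_C S_N` of such elliptic surfaces with canonical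
  singularities, for example all of them if all fibres of the Weierstrass equations are smooth
  or nodal, in particular all fibre powers of the universal elliptic curves with level
  structure over the modular curves `X(n)`, `n ≥ 3` (Kuga-Sato varieties), whose holomorphic forms of
  degree `N + 1` are the cusp forms of weight `N + 2`;
* `r = 1`: the quotients of such fibre products by the even changes of signs.

Let `X 0, …, X (m - 1)` be such varieties, equal or different. For a set `T` of pairs `(j, none)` and
`(j, b)` (`b` is a block of `X j`) let `π_T` be the projection of `X 0 × ⋯ × X (m - 1)` which replaces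
the coordinates of `X j` in the block `b` by those of the zero section for all pairs `(j, b)` which are
not in `T`, and the point of `X j` by a constant point if `(j, none)` is not in `T`. Its image is the
product of the base curves or of the fibre products of the blocks in `T` (over the base curves) for
the `j` with `(j, none) ∈ T`. Let `F^ν CH₀(X 0 × ⋯ × X (m - 1))_ℚ` be the group of all classes whose
images under the `π_T` with image of dimension less than `ν` are zero. We show that this filtration has
the properties 1-4 of a Bloch-Beilinson filtration for all correspondences which are combinations
of morphisms between such products whose components are constant or a factor followed by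
fibrewise multiplications by `1`, `-1` or `0` in the blocks.

In property 1 the group `F²` is the kernel of the Albanese map: the Albanese variety of the
product is the product of the Jacobians of the base curves of the factors, and so the kernel of
the Albanese map consists of the classes of degree `0` whose images in `CH₀(C_j)_ℚ` are zero for all
base curves `C_j` (theorem of Abel and Jacobi).

The holomorphic forms on (a resolution of) the product have the basis of the products of the
following forms on the factors: the differentials `ω` of the first kind on the base curve
(`g` forms), and for every non-empty set `S` of blocks the forms `ω ∧ ⋀ i, dx_i / ∏ b, y_b` (`i` and `b` in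
`S`), where `ω` runs through a basis of the differentials with `2 div ω + ∑ D_i ≥ 0` (`n_S + g - 1` forms,
`2 n_S = deg ∑ D_i > 0`). The condition on the orders excludes other forms; the resolution has the
same Chow group of zero-cycles, since the fibres over canonical singularities are rationally chain
connected.

For the product of `n = p_g(X) + 1` equal elliptic surfaces `X` over `C` the properties 4 and 2, applied
to the correspondence `∑ τ, sgn(τ) τ ∘ (id - [-1]) ^ (n)`, say that `Λ ^ (p_g + 1) T = 0` in
`CH₀(X ^ n)_ℚ`, where `T` is the part of `CH₀(X)_ℚ` on which `[-1]` acts as `-1` (for `C = ℙ¹` this is the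
group of all zero-cycles of degree zero); for Kuga-Sato varieties they say that the products of
`d + 1` zero-cycles which belong to cusp forms vanish after (anti)symmetrisation, where `d` is the
dimension of the space of cusp forms.

Proof. It suffices to show this for the classes `{p_0} × ⋯ × {p_(n - 1)}`, where `{p}` is the
alternating sum over the changes of signs (for curves: for `(p_0 - o) × ⋯ × (p_g - o)`, using the
theorem of Riemann). The elliptic curve `y ² = x ³ - 3 α x + B` is covered by the curve
`Σ ² = V ² + B V + α ³`, `V = w ⁶` with `x = w ² + α / w ²`, `y = Σ / w ³`. To `n` points of this conic over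
the points `s_j` of the curve one attaches a product of matrices of degree one over the
polynomials in one variable, which is a symmetric function of the `s_j` and of the choices of the
square roots of the `α_j ³`: different orders of the factors and choices of the roots give up to
`n! 2 ^ n` factorisations of the same matrix, and the class `{p_0} × ⋯ × {p_(n - 1)}` changes only by
the sign of the permutation of the factors. So the class (symmetrised over the remaining finite
choices) becomes a function on a variety which is fibred over the symmetric product `C ^ (n)`,
more precisely over its linear systems, whose dimension is at least `n - g`. A count of constants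
(Krull's theorem) shows that there are rational curves in this variety through all of its points
which lead to points at which the class is zero. For an index `i` with `A_i = 0` or `B_i = 0` the
curves are twists of a constant curve; here the class is antisymmetric in the coordinates on the
constant curve, and it depends only on these coordinates and on the product of the twists, so
that it is a function of one point of the curve with the coefficients `∏ j, A_i(s_j)`, `∏ j, B_i(s_j)`.
-/

set_option autoImplicit false

namespace Pool.Agent.Results.MP_08891c_ag.CurvesAndFibreProducts

open Pool.Agent Pool.Agent.EFC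

theorem result {k : Type} [Field k] [IsAlgClosed k] [CharZero k] :
    -- a decreasing filtration of the zero-cycles modulo rational equivalence
    (∀ (m : ℕ) (X : Fin m → EC k) (ν : ℕ), ratEqP X ≤ Fil X ν ∧ Fil X (ν + 1) ≤ Fil X ν) ∧
    -- 1: `F⁰` is everything
    (∀ (m : ℕ) (X : Fin m → EC k) (z : Pts m k →₀ ℚ), z ∈ Fil X 0 ↔ ∀ p ∈ z.support, OnP X p) ∧
    -- 1: `F¹` is the part of degree zero
    (∀ (m : ℕ) (X : Fin m → EC k) (z : Pts m k →₀ ℚ), z ∈ Fil X 1 ↔
      (∀ p ∈ z.support, OnP X p) ∧ (z.sum fun _ c => c) = 0) ∧
    -- 1: `F²` is the kernel of the Albanese map
    (∀ (m : ℕ) (X : Fin m → EC k) (z : Pts m k →₀ ℚ), z ∈ Fil X 2 ↔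
      z ∈ Fil X 1 ∧ ∀ j, toBase j z ∈ ratEqP (fun _ : Fin 1 => (X j).base)) ∧
    -- 2: `F^(dim + 1) = 0`
    (∀ (m : ℕ) (X : Fin m → EC k), Fil X ((∑ j, (X j).dim) + 1) = ratEqP X) ∧
    -- 3: correspondences respect the filtration
    (∀ (m m' : ℕ) (X : Fin m → EC k) (Y : Fin m' → EC k) (ν : ℕ) (γ : Mor X Y →₀ ℚ),
      (Fil X ν).map (pushM γ) ≤ Fil Y ν) ∧
    -- 4: a correspondence which is zero on the holomorphic `ν`-forms is zero on `gr^ν`
    (∀ (m m' : ℕ) (X : Fin m → EC k) (Y : Fin m' → EC k) (ν : ℕ) (γ : Mor X Y →₀ ℚ),
      KillsForms γ ν → (Fil X ν).map (pushM γ) ≤ Fil Y (ν + 1)) := by
  have hg : ∀ (L : Type) [Field L] [Algebra k L] (hL : IsCurve k L),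
      ∃ g, TInc.Riemann hL.dess g := fun L _ _ hL => TInc.exists_genus hL.dess
  exact ⟨fun _ _ ν => ⟨Fil_ge ν, Fil_anti ν⟩, fun _ _ z => Fil_zero z, fun _ _ z => Fil_one z,
    fun _ _ z => Fil_two z, fun _ _ => Fil_top, fun _ _ _ _ ν γ => Fil_map γ ν,
    fun _ _ _ _ ν γ h => Fil_grad (coreI hg) (coreG hg) (fun _ _ => trivial) γ ν h⟩

end Pool.Agent.Results.MP_08891c_ag.CurvesAndFibreProducts
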