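import Mathlib
import Pool.Agent.BBX.Thm
import Pool.Agent.HYG.CSwap

/-!
# A Bloch-Beilinson filtration on the zero-cycles of products of Calabi-Yau diagonal complete
intersections, determinantal hypersurfaces and Dwork quintics

We consider complex projective varieties of the following three kinds.

1. All smooth complete intersections `∑ j, c i j * x j ^ d = 0`, `i < r`, of `r` diagonal
   hypersurfaces of degree `d ≥ 2` which are Calabi-Yau varieties: there are `N = r d` homogeneous
   coordinates, and the dimension is `n = r d - r - 1 ≥ 1`. (The intersection is smooth if and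
   only if all `r × r` minors of the matrix `c` are different from zero.) For `d = 2` these are
   the smooth complete intersections of `r` diagonal quadrics in the projective space of dimension
   `2 r - 1`. They form families of dimension `(r - 1) ^ 2`, and their quotients by the even
   changes of signs of the coordinates are the double coverings of the projective space of
   dimension `r - 1` which are branched along `2 r` hyperplanes. (The Fermat hypersurfaces of
   degree `d = n + 2` are the case `r = 1`.)
2. The hypersurfaces `det (A - diag (w i ^ M i)) = 0` in the product of `l ≥ 2` projective lines,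
   with the affine coordinates `w i`, `M i ≥ 2`, for all complex `l × l` matrices `A` such that
   for one `i` all entries of the row `i` and of the column `i` are different from zero. They are
   birational to the coverings `w i ^ M i = (∑ j, A i j * x j) / x i` of the projective space of
   dimension `l - 1`, and form families of dimension `(l - 1) ^ 2` (the matrices `A` up to
   multiplication with diagonal matrices from both sides). If `M i = 2` for all `i` then they are
   Calabi-Yau hypersurfaces of degree `(2, …, 2)`. The hypergeometric hypersurfaces `∏ i, (1 - w i
   ^ M i) = λ`, `λ ≠ 0, 1`, are special cases (replace `w i` by `1 / w i` for `i > 0`; then the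
   row `0` of `A` is `(1 - λ, -λ, …, -λ)`, and the row `i > 0` is `(1, …, 1, 0, …, 0)` with `i +
   1` entries `1`).
3. All Dwork quintic threefolds `∑ i, x i ^ 5 = 5 t ∏ i, x i` (for `t ^ 5 = 1` they have ordinary
   double points).

A basis of the holomorphic forms of the highest degree `n` is given by the residue `ω` of the
standard form for kind 1 and kind 3, and by the residues `ω_a = Res ∏ w i ^ (a i - 1) dw_i / det`,
`0 < a i < M i`, for kind 2. There are no holomorphic forms of the degrees `1, …, n - 1` (for kind
2 we mean the forms on the possibly singular hypersurface; they are the forms on a resolution if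
the singularities are canonical). We consider the automorphisms `x ↦ (ζ j * x j)`, `ζ j ^ d = 1`
(kind 1), `w ↦ (h i * w i)`, `h i ^ M i = 1` (kind 2), and `x ↦ (h i * x (π i))`, `h i ^ 5 = 1`,
`∏ h i = 1`, for permutations `π` (kind 3). Combinations of these automorphisms are
correspondences; the projectors to the invariants of finite groups of such automorphisms are
included, and so the results hold also for the quotients, e.g. for the mirror quintics and the
double coverings branched along hyperplanes.

Let `Y s`, `s ∈ S`, be a finite family of such varieties. For every product `Y ^ m = ∏ s, (Y s) ^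
(m s)` let `F^ν CH₀(Y ^ m)_ℚ` be generated by the products of zero-cycles on the factors such that
the sum of the dimensions of the factors on which they have degree zero is at least `ν`. This
filtration has the properties 1-4 of a Bloch-Beilinson filtration for all correspondences which
are combinations of morphisms `Y ^ m → Y ^ m'` all of whose components are constant or a factor
followed by one of the automorphisms. In particular (`Y ^ m = Y × Y` and `γ = id - (-1) ^ n swap`)
it contains the conjecture of Voisin (1996) that `a × b = (-1) ^ n b × a` in `CH₀(Y × Y)_ℚ`, for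
all zero-cycles `a`, `b` of degree zero on `Y` and all `Y` of the kinds 1 and 3, and of kind 2
with `M i = 2` for all `i`.
-/

set_option autoImplicit false

namespace Pool.Agent.Results.MP_08891c_ag.DiagonalDeterminantalDwork

open Pool.Agent.BBM Pool.Agent.BBX

theorem result {S₁ S₂ S₃ : Type} [Fintype S₁] [Fintype S₂] [Fintype S₃] [DecidableEq S₁]
    [DecidableEq S₂] [DecidableEq S₃] (Y : Fly S₁ S₂ S₃) (hY : Y.Ok) :
    -- a decreasing filtration of the zero-cycles on `Y ^ m` modulo rational equivalence
    (∀ m ν, Y.rat m ≤ Fil Y.rat Y.n m ν ∧ Fil Y.rat Y.n m (ν + 1) ≤ Fil Y.rat Y.n m ν) ∧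
    -- 1: `F⁰` is everything, `F¹` is the part of degree zero, `F²` is the part of degree zero which
    -- is killed by all morphisms to a curve of the family (the kernel of the Albanese map)
    (∀ m, Fil Y.rat Y.n m 0 = ⊤) ∧
    (∀ m z, z ∈ Fil Y.rat Y.n m 1 ↔ (z.sum fun _ c => c) = 0) ∧
    (∀ m z, z ∈ Fil Y.rat Y.n m 2 ↔ (z.sum fun _ c => c) = 0 ∧
      ∀ m' : S₁ ⊕ S₂ ⊕ S₃ → ℕ, ∑ s, Y.n s * m' s = 1 → ∀ f : Mor Y.P Y.G m m',
        z.mapDomain (f.app Y.act) ∈ Y.rat m') ∧
    -- 2: `F^(dim + 1) = 0`
    (∀ m, Fil Y.rat Y.n m (∑ s, Y.n s * m s + 1) = Y.rat m) ∧
    -- 3: correspondences respect the filtration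
    (∀ m m' ν (γ : Mor Y.P Y.G m m' →₀ ℚ),
      (Fil Y.rat Y.n m ν).map (pushM Y.act γ) ≤ Fil Y.rat Y.n m' ν) ∧
    -- 4: a correspondence which is zero on the holomorphic `ν`-forms is zero on `gr^ν`
    (∀ m m' ν (γ : Mor Y.P Y.G m m' →₀ ℚ), Y.KillsForms γ ν →
      (Fil Y.rat Y.n m ν).map (pushM Y.act γ) ≤ Fil Y.rat Y.n m' (ν + 1)) :=
  conditions (HYG.swapAll_holds ℂ) hY

end Pool.Agent.Results.MP_08891c_ag.DiagonalDeterminantalDwork
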