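import Mathlib
import Pool.Agent.GBB.Thm
import Pool.Agent.VGen.HasSwap

/-!
# A Bloch-Beilinson filtration on the zero-cycles of all powers of diagonal complete intersections

`X` is a smooth complete intersection of dimension `n ≥ 2` of `r` diagonal hypersurfaces of degree
`d` in the complex projective space with `N = n + r + 1` homogeneous coordinates. We assume that
`N ≥ (r - 1) d + ⌊d / 2⌋ + 2` or `N = r d`. For all `m` let `F^ν CH₀(X ^ m)_ℚ` be generated by the
products of `m` zero-cycles on `X` of which at least `ν / n` have degree zero. This filtration has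
the properties 1-4 of a Bloch-Beilinson filtration for all correspondences which are combinations
of morphisms `X ^ m → X ^ m'` with components constant or a factor followed by a diagonal
automorphism of `X`.
-/

set_option autoImplicit false

namespace Pool.Agent.Results.MP_08891c_ag.DiagonalPowers

open Pool.Agent.GBB Pool.Agent.DCI57
open scoped LinearAlgebra.Projectivization

/-- `X` is a smooth complete intersection of `r` diagonal hypersurfaces of degree `d`: it is
defined by the equations `∑ j, c i j * x j ^ d = 0`, `i < r`, where all maximal minors of the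
matrix `c` are nonzero (the Jacobian criterion). -/
def IsDiagonal (d r : ℕ) {N : ℕ} (X : Set (ℙ ℂ (Fin N → ℂ))) : Prop :=
  ∃ c : Fin r → Fin N → ℂ, (∀ f : Fin r → Fin N, Function.Injective f →
    (Matrix.of fun i s => c i (f s)).det ≠ 0) ∧ X = Diag d c

theorem result (d n r : ℕ) (hd : 2 ≤ d) (hn : 2 ≤ n) (hr : 1 ≤ r)
    (hN : (r - 1) * d + d / 2 + 2 ≤ n + r + 1 ∨ n + r + 1 = r * d)
    (X : Set (ℙ ℂ (Fin (n + r + 1) → ℂ))) (hX : IsDiagonal d r X) :
    -- a decreasing filtration of the zero-cycles on `X ^ m` modulo rational equivalence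
    (∀ m ν, ratEq ℚ X m ≤ Fil n X m ν ∧ Fil n X m (ν + 1) ≤ Fil n X m ν) ∧
    -- 1: `F⁰` is everything, `F¹ = F²` is the part of degree zero (the Albanese variety is zero)
    (∀ m z, z ∈ Fil n X m 0 ↔ ∀ p ∈ z.support, OnX X p) ∧
    (∀ m z, z ∈ Fil n X m 1 ↔ (∀ p ∈ z.support, OnX X p) ∧ (z.sum fun _ c => c) = 0) ∧
    (∀ m, Fil n X m 2 = Fil n X m 1) ∧
    -- 2: `F^(dim + 1) = 0`
    (∀ m, Fil n X m (n * m + 1) = ratEq ℚ X m) ∧
    -- 3: correspondences respect the filtration
    (∀ m m' ν (γ : Mor d m m' X →₀ ℚ), (Fil n X m ν).map (pushM γ) ≤ Fil n X m' ν) ∧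
    -- 4: a correspondence which is zero on the holomorphic `ν`-forms is zero on `gr^ν`
    (∀ m m' ν (γ : Mor d m m' X →₀ ℚ), KillsNuForms n r γ ν →
      (Fil n X m ν).map (pushM γ) ≤ Fil n X m' (ν + 1)) := by
  have : NeZero d := ⟨by omega⟩
  obtain ⟨c, hc, rfl⟩ := hX
  exact conditions (by omega) hn hr rfl hN (hasSwap_gen rfl hc)

end Pool.Agent.Results.MP_08891c_ag.DiagonalPowers
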