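import Pool.Agent.GTM.DkH

/-!
# Zero-cycles on varieties covered by Dickson curves

`X` is a projective variety over an algebraically closed field `k` of characteristic zero, `L` the
function field of a curve `C` over `k`, `S : y ² = D_m(x, f) + B` a hyperelliptic curve over `L`, where
`D_m` is the Dickson polynomial, `D_m(w + f / w, f) = w ^ m + (f / w) ^ m`, and `m ≥ 5` (so the genus of
`S` over `L` is `[(m - 1) / 2] ≥ 2`), `h` a separable polynomial over `L`, and `φ_θ : S → X` a rational
map with coefficients in `L(θ)` for every root `θ` of `h` (for `h = T` this is a rational map from the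
surface `S → C` to `X`). In the structure `GD` the field `α` is the function `f`, `B` is `B`, and
`G_i(θ, x) + H_i(θ, x) y` are the coordinates of `φ_θ(x, y)`.

`N + 1 = (m - 2) a + g`, where `g` is the genus of `C` and `a > 0` is the degree of a divisor `A` with
`div f + 4 A ≥ 0` and `div B + 2 m A ≥ 0`. For the general `f` and `B` the geometric genus of the surface
`S` is the sum of the numbers `(m - 2 i) a + g - 1` for `1 ≤ i ≤ (m - 1) / 2`, and `N` is the largest of
them.

The multiplication by roots of unity on the curve `σ ² = w ^ (2 m) + B w ^ m + f ^ m`,
`x = w + f / w`, induces correspondences on `S`. For a root of unity `ω` of the order dividing `m`, the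
cycles in `EigCycD` are eigenvectors of these correspondences. The theorem is about the action of the
group algebra of the symmetric group `S_r` on the exterior products of `r` zero-cycles on `X`, with
coefficients in a field `R` of characteristic zero: if `β` kills the tensors of degree `r` of a vector
space of dimension `h N`, then it kills, in `CH_0(X ^ r) ⊗ R`, the products of cycles which are sums of
eigenvectors for `h` roots of unity `ω ≠ ± 1` in `R`. For `h = [(m - 1) / 2]` it kills the products of
cycles `∑ a_i ∑_θ φ_θ(p_i)` such that the image of `∑ a_i p_i` in `CH_0(C) ⊗ R` is zero, for every `R`.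

## The proof

The fibre is covered by the curve `s ² = W ^ (4 m) + B W ^ (2 m) + f ^ m`, whose points are the sides
(matrices of degree one) of a polygon with `2 m` vertices. Two neighbouring sides can be exchanged by
refactorisation of the product of two matrices (`TInf/Recut`, `DK/Recut`), which changes the sign of the
class in the eigenspace. Therefore the alternating sum of `N + 1` classes in the fibres over `N + 1`
points of `C` only depends on the product of all matrices. The condition on this product is a system
of polynomial equations which has, by Riemann's inequality and Krull's theorem, a rational curve of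
solutions through a given solution. There are fewer equations than for a general hyperelliptic curve
with this symmetry, because `f ^ m` is a power (`DK/Psi`, `DK/Closing`). At some point of the rational
curve the class is zero because one of the fibres is singular, or one of the points tends to infinity.

The sum of all points with `y = 0` of a fibre depends, up to rational equivalence on `X`, only on the
class of the point of `C` (`GTM/ZerP`).
-/

set_option autoImplicit false

noncomputable section

open Pool.Agent.ZCyc Pool.Agent.Dess Pool.Agent.TInc Pool.Agent.GT Pool.Agent.GTM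

/-- **Zero-cycles on varieties covered by Dickson curves.** -/
theorem Pool.Agent.Results.MP_08891c_ag.DicksonSurfaces.result
    {k L : Type} [Field k] [IsAlgClosed k] [CharZero k] [Field L] [Algebra k L]
    (hL : IsCurve k L) {g : ℕ} (hg : Riemann hL g) {n : ℕ}
    {X : Set (MvPolynomial (Fin (n + 1)) k)} (hX : Hom X) {m : ℕ} (hm : 5 ≤ m)
    {d : GD L n} (hd : OkD m d X) {A : Place k L →₀ ℤ} {a : ℕ} (hA : deg A = a) (ha : 0 < a)
    (hf : ∀ v, 0 ≤ ord v d.α + 4 * A v) (hB : ∀ v, 0 ≤ ord v d.B + 2 * m * A v)
    (hJ : ∀ c : k, d.B ^ 2 ≠ algebraMap k L c * d.α ^ m) {N : ℕ}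
    (hN : N + 1 = (m - 2) * a + g) {ξ : k} (hξ : IsPrimitiveRoot ξ m)
    {R : Type} [Field R] [CharZero R] {h r : ℕ} {β : Equiv.Perm (Fin r) → R}
    (hβ : ZIso.KillsTensors (h * N) β) (z : Fin r → (Pt X k →₀ R))
    (hz : (∃ Ω : Fin h → R, (∀ i, Ω i ^ m = 1 ∧ Ω i ^ 2 ≠ 1) ∧
        ∀ j, z j ∈ (⨆ i, Submodule.span R (EigCycD R m d X ξ (Ω i))) ⊔ RatR1 R X) ∨
      h = (m - 1) / 2 ∧ ∀ j, z j ∈ KerD R hL m d X) :
    ∑ τ : Equiv.Perm (Fin r), β τ • extR (fun j => z (τ j)) ∈ RatR R X (Fin r) :=
  main_dickson hX hL hd (by omega) hA ha hf hB hJ hg hN hξ hβ z hz
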