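import Pool.Agent.Kim.Core3

/-!
# The zero-cycles of double planes are finite-dimensional

Let `k` be an algebraically closed field of characteristic `0`, `F` a form of degree `6` in three
variables such that the plane curve `F = 0` is nonsingular, and `X` the surface
`y ² = F(x₀, x₁, x₂)` in the weighted projective space `ℙ(1, 1, 1, 3)`, a K3 surface of degree two.
These K3 surfaces depend on `19` parameters, and the Picard number of the general one is `1`.

We show that `Λ ^ n CH₀(X)₀ = 0` for `n ≥ 69`: if `z 0, …, z (n - 1)` are zero-cycles of degree `0` on
`X` then the cycle `∑ τ, sgn(τ) z (τ 0) × ⋯ × z (τ (n - 1))` is zero in `CH₀(X ^ n)_ℚ`. So `CH₀(X)` is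
finite-dimensional in the sense of Kimura, as for products of curves. This is predicted by the
properties 4 and 2 of a Bloch-Beilinson filtration (`n > 22`, since `H ² (X)` is of dimension `22`).

Proof. Every point of `X` is above a tangent line of the curve. The double covering of the tangent
line at `c` is a rational or elliptic curve: the restriction of `F` to the tangent line is the square
of a linear form times a form `q_c` of degree four. So `X` is dominated by a family of elliptic curves
`y ² = x ³ - 3 α(c) x + B(c)` over the curve `F = 0`, `α` and `B` are forms of degrees `36` and `54`.
The classes `{p}`, the difference of `p` and its conjugate, do not change if `p` is translated by a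
point of order two, and `{p} = 0` for the points above the tangent lines at the zeros of the
discriminant `4 α ³ - B ²`, since their coverings are rational.
To `n` points of the elliptic curves over `c_1, …, c_n` one attaches a product of matrices of degree
one, which is the same for many different orderings of factors, and the class
`∑ τ, sgn(τ) {p_(τ 1)} × ⋯ × {p_(τ n)}` changes only by a sign. In this way it becomes a function on a
variety which is fibred over the linear systems of the curve. By Riemann's inequality and
a count of constants (Krull's theorem) there are, for `n ≥ 54 + 15`, rational curves in this variety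
which lead to points where one of the `c_i` is a zero of the discriminant. (The family may be
isotrivial, also with `α = 0` or `B = 0`.)
-/

set_option autoImplicit false

namespace Pool.Agent.Results.MP_08891c_ag.DoublePlanes

universe u

open Pool.Agent.Kim

theorem result {k : Type u} [Field k] [IsAlgClosed k] [CharZero k] {F : MvPolynomial (Fin 3) k}
    (hF : F.IsHomogeneous 6) (hns : NonSing F) {n : ℕ} (hn : 69 ≤ n)
    (z : Fin n → Pt k →₀ ℚ) (hz : ∀ i, ∀ p ∈ (z i).support, OnX F p)
    (h0 : ∀ i, ((z i).sum fun _ c => c) = 0) :
    ∑ τ : Equiv.Perm (Fin n), ((Equiv.Perm.sign τ : ℤ) : ℚ) • extProd (z ∘ τ) ∈ ratEq F n :=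
  main₂ hF hns hn hz h0

end Pool.Agent.Results.MP_08891c_ag.DoublePlanes
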