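import Pool.Agent.VK3.PMain

/-!
# A Bloch-Beilinson filtration on the zero-cycles of all products of elliptic K3 surfaces

Let `k` be an algebraically closed field of characteristic `0`. An elliptic K3 surface with section
is given by its minimal Weierstrass equation `y ² = x ³ + A(s₀, s₁) x + B(s₀, s₁)`, where `A` and `B`
are binary forms of degrees `8` and `12` (`EK3`). We use the hypersurface `X` in the weighted
projective space `ℙ(1, 1, 4, 6)` given by this equation, in which the zero section is contracted to
a point. (It has rational double points, and the K3 surface is its minimal resolution. Since the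
exceptional curves are rational, the Chow groups of zero-cycles of `X` and of the products of such
surfaces are the same as those of the resolutions.) These surfaces form a family of dimension `18`.

Let `X 0, …, X (m - 1)` be elliptic K3 surfaces with section, equal or different, and let
`F^ν CH₀(X 0 × ⋯ × X (m - 1))_ℚ` be generated by the products of `m` zero-cycles on the factors of
which at least `ν / 2` have degree zero. This filtration has the properties 1-4 of a
Bloch-Beilinson filtration for all correspondences which are combinations of morphisms between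
such products whose components are constant or a factor followed by `± 1`.

For `m = 2`, `X 0 = X 1 = X` and the correspondence `γ = id - swap`, which is zero on the
holomorphic 4-forms, the properties 4 and 2 say that `a × b = b × a` in `CH₀(X × X)_ℚ` for zero-cycles
`a` and `b` of degree zero on `X`. This is Voisin's conjecture on zero-cycles (1996) for all elliptic
K3 surfaces with section; it is the main point.

Proof. Put `{p} = [p] - [-p]`. One has to show that `{p} × {q} = {q} × {p}`. Let
`p = (s, x₁, y₁)`, `q = (t, x₂, y₂)`, `u = y₂ / y₁` and `ν ³ = u ²`. The points `(x₁, x₂)` with the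
same `s`, `t`, `u` form the plane cubic curve `F : f_t(x₂) = u ² f_s(x₁)`, where
`f_s(x) = x ³ + A(s) x + B(s)`. A line of slope `ν` meets it in two finite points, and the sum of
the two classes `{p} × {q} - {q} × {p}` is zero (move the line to infinity). From this one deduces
that this class is a function `ψ` on the Jacobian fibration
`W : Θ ² = 4 Ξ ³ - 12 A(s) A(t) Ξ + 54 B(s) B(t) - (Z + Z')`, `Z = Δ(s) u ²`, `Z' = Δ(t) u ^ {-2}`,
independent of the choices of `u` and `ν`. Moving `Θ` to infinity one sees that `ψ` changes its sign
if `Z` and `Z'` are exchanged. So it is a function on the hypersurface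
`T ² = (4 Ξ ³ - 12 A(s) A(t) Ξ + 54 B(s) B(t) - Θ ²) ² - 4 Δ(s) Δ(t)`, where now the pair `{s, t}`
is unordered, i.e. a point of the projective plane. This is a Fano fourfold of degree `24` in
`ℙ(1, 1, 1, 4, 6, 12)`. Counting constants (25 coefficients, 24 equations), one finds through each
of its points a rational curve on which `{s, t}` moves, or `s` and `t` are constant. In the first
case it contains a point with `Δ(s) Δ(t) = 0`, where `ψ = 0` since the singular fibres are rational;
in the second case it joins `Z` to `Z'`, or `W` is a singular curve.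
-/

set_option autoImplicit false

namespace Pool.Agent.Results.MP_08891c_ag.EllipticK3

universe u

open Pool.Agent.VK3

theorem result {k : Type u} [Field k] [IsAlgClosed k] [CharZero k] :
    -- a decreasing filtration of the zero-cycles modulo rational equivalence
    (∀ (m : ℕ) (X : Fin m → EK3 k) (ν : ℕ), ratEqP X ≤ Fil X ν ∧ Fil X (ν + 1) ≤ Fil X ν) ∧
    -- 1: `F⁰` is everything, `F¹ = F²` is the part of degree zero (the Albanese variety is zero)
    (∀ (m : ℕ) (X : Fin m → EK3 k) (z : Pts m k →₀ ℚ), z ∈ Fil X 0 ↔ ∀ p ∈ z.support, OnP X p) ∧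
    (∀ (m : ℕ) (X : Fin m → EK3 k) (z : Pts m k →₀ ℚ), z ∈ Fil X 1 ↔
      (∀ p ∈ z.support, OnP X p) ∧ (z.sum fun _ c => c) = 0) ∧
    (∀ (m : ℕ) (X : Fin m → EK3 k), Fil X 2 = Fil X 1) ∧
    -- 2: `F^(dim + 1) = 0`
    (∀ (m : ℕ) (X : Fin m → EK3 k), Fil X (2 * m + 1) = ratEqP X) ∧
    -- 3: correspondences respect the filtration
    (∀ (m m' : ℕ) (X : Fin m → EK3 k) (Y : Fin m' → EK3 k) (ν : ℕ) (γ : Mor X Y →₀ ℚ),
      (Fil X ν).map (pushM γ) ≤ Fil Y ν) ∧
    -- 4: a correspondence which is zero on the holomorphic `ν`-forms is zero on `gr^ν`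
    (∀ (m m' : ℕ) (X : Fin m → EK3 k) (Y : Fin m' → EK3 k) (ν : ℕ) (γ : Mor X Y →₀ ℚ),
      KillsForms γ ν → (Fil X ν).map (pushM γ) ≤ Fil Y (ν + 1)) :=
  ⟨fun _ X ν => ⟨Fil_ge X ν, Fil_anti X ν⟩, fun _ X z => Fil_zero X z, fun _ X z => Fil_one X z,
    fun _ X => Fil_two X, fun _ X => Fil_top X, fun _ _ _ _ ν γ => Fil_map γ ν,
    fun _ _ _ _ ν γ h => Fil_grad γ ν h⟩

end Pool.Agent.Results.MP_08891c_ag.EllipticK3
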