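import Pool.Agent.EFP.Main
import Pool.Agent.TInf.Core

/-!
# A Bloch-Beilinson filtration on the zero-cycles of products of fibre products of elliptic surfaces

Let `k` be an algebraically closed field of characteristic `0`. We consider the varieties `X` (with
canonical singularities) of the class `EF`: `X` is of dimension `N + 1`, over the line with
coordinates `(s₀ : s₁)` it is given by the equations

  `y_b ² = ∏ z_i (x_i ³ + A_i(s) x_i z_i ² + B_i(s) z_i ³)`, `b < r`,

where the product is over the indices `i` of the block `b`. Here `A_i` and `B_i` are binary forms of
degrees `2 d_i` and `3 d_i` with `d_i ≥ 0`, the sums of the `d_i` over the blocks are even and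
positive; the discriminants are not zero, `∑ i, min (3 ord A_i) (2 ord B_i) < 12` at all points of the
line, and all `A_i`, `B_i` are different from zero or `∑ d_i ≤ 4`. Examples:

* `N = r = 1`: all elliptic surfaces over the line with section (minimal Weierstrass equations with
  `A B ≠ 0`) of arbitrary geometric genus `p_g = d / 2 - 1`, with `10 p_g + 8` moduli;
* `N = r`: all fibre products `S_1 ×_(ℙ¹) ⋯ ×_(ℙ¹) S_N` of such elliptic surfaces with canonical
  singularities, for example all of them if the fibres of the Weierstrass equations are smooth or
  nodal, and all Schoen Calabi-Yau threefolds;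
* `r = 1`: the quotients of such fibre products by the even changes of signs; here `d_i` may be odd
  or `0`, and `X` has geometric genus `∑ d_i / 2 - 1` and no other holomorphic forms;
* `∑ d_i = 4`: all the Calabi-Yau varieties of dimension `N + 1` of this kind: elliptic K3 surfaces
  with section, Borcea-Voisin threefolds, double coverings of `ℙ⁵` branched along four cubic cones.

Let `X 0, …, X (m - 1)` be such varieties, equal or different. For a set `T` of pairs `(j, b)` (`b` is a
block of `X j`) let `π_T` be the projection of `X 0 × ⋯ × X (m - 1)` which replaces the coordinates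
`x_i, z_i, y_b` of `X j` in the block `b` by those of the zero section for all `(j, b) ∉ T`. Its image
is, up to a product of lines, the product of the fibre products of the blocks in `T`. Let
`F^ν CH₀(X 0 × ⋯ × X (m - 1))_ℚ` be the group of all classes whose images under the `π_T` with image
of dimension less than `ν` (not counting the lines) are zero. We show that this filtration has the
properties 1-4 of a Bloch-Beilinson filtration for all correspondences which are combinations of
morphisms between such products whose components are constant or a factor followed by fibrewise
multiplications by `1`, `-1` or `0` in the blocks.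

The holomorphic forms on (a resolution of) the product have the basis of the products of the forms
`s ^ a ds ∧ ⋀ i, dx_i / ∏ b, y_b` on the factors, where `i` and `b` run through a non-empty set `S` of
blocks and `0 ≤ a ≤ n_S - 2`, where `n_S` is half of the sum of the `d_i` for these indices `i` (the
condition on the orders excludes other forms; the resolution has the same Chow group of zero-cycles,
since the fibres over canonical singularities are rationally chain connected).

For the product of `n` equal factors `X` with `r = 1`, `n = p_g(X) + 1 = ∑ d_i / 2`, and the
correspondence `∑ τ, sgn(τ) ^ (N) τ` (sum over all permutations), which is zero on the holomorphic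
forms of degree `n (N + 1)`, the properties 4 and 2 say that
`∑ τ, sgn(τ) ^ N a (τ 0) × ⋯ × a (τ (n - 1)) = 0` in `CH₀(X ^ n)_ℚ` for zero-cycles `a j` of degree zero
on `X`. For surfaces this is `Λ ^ (p_g + 1) CH₀(X)_(deg 0) = 0`; for `p_g = 1` this is Voisin's
conjecture.

Proof. It suffices to show this for the classes `{p_0} × ⋯ × {p_(n - 1)}`, where `{p}` is the
alternating sum over the changes of signs. The elliptic curve `y ² = x ³ - 3 α x + B` is covered by the
curve `Σ ² = V ² + B V + α ³`, `V = w ⁶` with `x = w ² + α / w ²`, `y = Σ / w ³`. To `n` points of this conic
over the points `s_j` of the line one attaches a product of matrices of degree one over the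
polynomials in one variable, which is a symmetric function of the `s_j` and of the choices of the
square roots of the `α_j ³`: different orders of the factors and choices of the roots give up to `n! 2 ^ n`
factorisations of the same matrix, and the class `{p_0} × ⋯ × {p_(n - 1)}` changes only by the sign of
the permutation of the factors. So the class (symmetrised over the remaining finite choices) becomes a
function on a variety which is fibred over the symmetric product `ℙ ^ n` of the line. A count of
constants (Krull's theorem) shows that there are rational curves in this variety through all of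
its points which lead to points at which the class is zero.
-/

set_option autoImplicit false

namespace Pool.Agent.Results.MP_08891c_ag.FibreProducts

universe u

open Pool.Agent Pool.Agent.EFP

theorem result {k : Type u} [Field k] [IsAlgClosed k] [CharZero k] :
    -- a decreasing filtration of the zero-cycles modulo rational equivalence
    (∀ (m : ℕ) (X : Fin m → EF k) (ν : ℕ), ratEqP X ≤ Fil X ν ∧ Fil X (ν + 1) ≤ Fil X ν) ∧
    -- 1: `F⁰` is everything, `F¹ = F²` is the part of degree zero (the Albanese variety is zero)
    (∀ (m : ℕ) (X : Fin m → EF k) (z : Pts m k →₀ ℚ), z ∈ Fil X 0 ↔ ∀ p ∈ z.support, OnP X p) ∧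
    (∀ (m : ℕ) (X : Fin m → EF k) (z : Pts m k →₀ ℚ), z ∈ Fil X 1 ↔
      (∀ p ∈ z.support, OnP X p) ∧ (z.sum fun _ c => c) = 0) ∧
    (∀ (m : ℕ) (X : Fin m → EF k), Fil X 2 = Fil X 1) ∧
    -- 2: `F^(dim + 1) = 0`
    (∀ (m : ℕ) (X : Fin m → EF k), Fil X ((∑ j, (X j).dim) + 1) = ratEqP X) ∧
    -- 3: correspondences respect the filtration
    (∀ (m m' : ℕ) (X : Fin m → EF k) (Y : Fin m' → EF k) (ν : ℕ) (γ : Mor X Y →₀ ℚ),
      (Fil X ν).map (pushM γ) ≤ Fil Y ν) ∧
    -- 4: a correspondence which is zero on the holomorphic `ν`-forms is zero on `gr^ν`
    (∀ (m m' : ℕ) (X : Fin m → EF k) (Y : Fin m' → EF k) (ν : ℕ) (γ : Mor X Y →₀ ℚ),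
      KillsForms γ ν → (Fil X ν).map (pushM γ) ≤ Fil Y (ν + 1)) :=
  ⟨fun _ _ ν => ⟨Fil_ge ν, Fil_anti ν⟩, fun _ _ z => Fil_zero z, fun _ _ z => Fil_one z,
    fun _ _ => Fil_two, fun _ _ => Fil_top, fun _ _ _ _ ν γ => Fil_map γ ν,
    fun _ _ _ _ ν γ h => Fil_grad TInf.core γ ν h⟩

end Pool.Agent.Results.MP_08891c_ag.FibreProducts
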