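import Pool.Agent.LCyc.Main

/-!
# The generalised Bloch conjecture for diagonal complete intersections, in all dimensions

`X` is the closed subset of the projective space with homogeneous coordinates `x j`, `j : Fin N`,
given by the equations `∑ j, c i j * x j ^ m = 0`, `i : Fin r`. The group `(ZMod m) ^ N` acts on `X`
by `x j ↦ ζ ^ (g j) * x j`. The theorem describes the action of the elements `α` of its group algebra
on the Chow group of cycles of dimension `l` on `X`, with coefficients in `ℚ`, for all `l`.
-/

set_option autoImplicit false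

namespace Pool.Agent.Results.MP_08891c_ag.GeneralizedBloch

open Pool.Agent.LCyc

universe u

/-- If `α` kills all monomials `∏ j, x j ^ b j` with all `b j ≥ 1` and `∑ j, b j = (r + l) * m` such
that the columns `c · j` with `m ∣ b j` do not span the space of columns (for a smooth complete
intersection `X` of dimension `n`: if `α` kills `F ^ (n - l)` of the primitive part of the cohomology
of degree `n`) then `α` maps every cycle `z` of dimension `l` on `X` to the multiple
`(∑ g, α g) * d z` of a fixed cycle `z₀`, modulo rational equivalence. -/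
theorem result {k : Type u} [Field k] [IsAlgClosed k] [CharZero k] {m : ℕ} [NeZero m] {ζ : kˣ}
    (hζ : IsPrimitiveRoot (ζ : k) m) {N r l : ℕ} (c : Fin r → Fin N → k)
    (hm : (m ≤ 5 ∨ m = 7) ∨ (r + l - 1) * m + m / 2 + 2 ≤ N) :
    ∃ (z₀ : Ideal (MvPolynomial (Fin N) k) →₀ ℚ)
      (d : (Ideal (MvPolynomial (Fin N) k) →₀ ℚ) →ₗ[ℚ] ℚ),
      (∀ P ∈ z₀.support, IsPrimeCycle (diag m c) l P) ∧
      ∀ α : (Fin N → ZMod m) → ℚ,
        (∀ b : Fin N → ℕ, (∀ j, 1 ≤ b j) → ∑ j, b j = (r + l) * m →
          Submodule.span k ((fun j i => c i j) '' {j | m ∣ b j}) ≠ ⊤ →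
          ∑ g, (α g : k) * (ζ : k) ^ (∑ j, (b j : ZMod m) * g j).val = 0) →
        ∀ z : Ideal (MvPolynomial (Fin N) k) →₀ ℚ,
          (∀ P ∈ z.support, IsPrimeCycle (diag m c) l P) →
          ∑ g, α g • z.mapDomain (act ζ g) - ((∑ g, α g) * d z) • z₀ ∈
            ratEquiv ℚ (diag m c) l :=
  algebra_main hζ c (by simpa only [Fintype.card_fin] using hm)

end Pool.Agent.Results.MP_08891c_ag.GeneralizedBloch
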