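import Pool.Agent.GT.Cov

/-!
# Zero-cycles on varieties covered by curves of genus one

`X` is a projective variety over an algebraically closed field `k` of characteristic zero, `L` the
function field of a curve `C` over `k`, `E : y ² = x ³ - 3 α x + B` an elliptic curve over `L`, `h` a
separable polynomial over `L`, and `φ_θ : E → X` a rational map with coefficients in `L(θ)` for every
root `θ` of `h` (for `h = T` this is a rational map from the elliptic surface `E → C` to `X`).

`N + 1 = n₀ + g`, where `g` is the genus of `C` and `n₀` is the degree of a divisor `D` with
`div α + 4 D ≥ 0` and `div B + 6 D ≥ 0`. For the smallest `D` the number `N` is the geometric genus of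
the elliptic surface.

The theorem is about the action of the group algebra of the symmetric group `S_r` on the exterior
products of `r` zero-cycles on `X`: if `β` kills the tensors of degree `r` of a vector space of
dimension `N`, then it kills, in `CH_0(X ^ r) ⊗ ℚ`, the products of cycles
`∑_θ φ_θ(p) - ∑_θ φ_θ(q)`, where `p` and `q` are points of one fibre of `E → C`; and it kills all
products of zero-cycles of degree zero if `CH_0(X) ⊗ ℚ` is generated by the cycles `∑_θ φ_θ(p)` and
the sum of the images of some points of `E` (algebraic over `L`) is constant in `CH_0(X) ⊗ ℚ`.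

## The proof

For `N + 1` points of `C` we consider the alternating sum of the products of classes in the fibres. A
fibre is covered by the curve `w ⁶ = V`, `Sg ² = V ² + B V + α ³`, whose points are the sides
(matrices of degree one) of a polygon. Two neighbouring sides can be exchanged by refactorisation of
the product of two matrices (`TInf/Recut`), which changes the sign of the class. Therefore the
alternating sum only depends on the product of all matrices, which is invariant under all
permutations of the points of `C`. The condition on this product is a system of polynomial equations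
which has, by Riemann's inequality and Krull's theorem, a rational curve of solutions through a given
solution (`KFam/Krull`, `TInc/Main`), and at some point of the rational curve the class is zero
because one of the fibres is singular, or one of the points tends to infinity.
-/

set_option autoImplicit false

noncomputable section

open Pool.Agent.ZCyc Pool.Agent.Dess Pool.Agent.TInc Pool.Agent.GT

/-- **Zero-cycles on varieties covered by curves of genus one.** -/
theorem Pool.Agent.Results.MP_08891c_ag.GenusOneFamilies.result
    {k L : Type} [Field k] [IsAlgClosed k] [CharZero k] [Field L] [Algebra k L]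
    (hL : IsCurve k L) {g : ℕ} (hg : Riemann hL g) {m : ℕ}
    {X : Set (MvPolynomial (Fin (m + 1)) k)} (hX : Hom X)
    {d : GD L m} (hd : d.Ok X) {δ : Place k L} (hδ : BadAt δ d.α d.B)
    {D : Place k L →₀ ℤ} {n₀ : ℕ} (hD : deg D = n₀) (hn₀ : 0 < n₀)
    (hα : d.α ≠ 0 → ∀ v, 0 ≤ ord v d.α + 4 * D v)
    (hB : d.B ≠ 0 → ∀ v, 0 ≤ ord v d.B + 6 * D v)
    {N : ℕ} (hN : N + 1 = n₀ + g) {r : ℕ} {β : Equiv.Perm (Fin r) → ℚ}
    (hβ : ZIso.KillsTensors N β) (z : Fin r → (Pt X k →₀ ℚ))
    (hz : (∀ j, z j ∈ Submodule.span ℚ (DiffCyc d X) ⊔ Rat1 X) ∨
      (∀ x : Pt X k, Finsupp.single x 1 ∈ Submodule.span ℚ (ValCyc d X) ⊔ Rat1 X) ∧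
        ConstSec d X ∧ ∀ j, ((z j).sum fun _ a => a) = 0) :
    ∑ τ : Equiv.Perm (Fin r), β τ • ext (fun j => z (τ j)) ∈ Rat X (Fin r) :=
  main_cov hX hL hd hD hn₀ hα hB hg hN hδ hβ z hz
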