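import Pool.Agent.HGF.KRat

/-!
# A Bloch-Beilinson filtration on the zero-cycles of products of families of hypergeometric
# hypersurfaces

Let `k` be an algebraically closed field of characteristic `0` (for example `ℂ`). We consider the
following class of varieties. Let `m ≥ 2`, `M ≥ 1`, `d_i ≥ 0` (`i < m`), `D = ∑ d_i`, let `B_i`,
`C_i` be binary forms of degree `d_i` and `A` a binary form of degree `D`. All forms are different
from zero and `A` is not a multiple of `∏ B_i`; otherwise they are arbitrary. Let `Y` be the
hypersurface

  `∏_(i < m) (B_i(s) v_i ^ M - C_i(s) u_i ^ M) = A(s) ∏_(i < m) v_i ^ M`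

of degree `(D, M, …, M)` in `(ℙ¹) ^ (m + 1)` with the coordinates `s` and `(u_i : v_i)`. It is a
family over `ℙ¹` of the hypersurfaces `∏ (1 - x_i) = λ`, `x_i = C_i(s) u_i ^ M / B_i(s)`, `λ =
A(s) / ∏ B_i(s)`. For `C_i = B_i` this is the pull-back by the map `λ : ℙ¹ → ℙ¹` of degree `≤ D`
of the pencil `∏ (1 - u_i ^ M) = λ`, whose periods are the hypergeometric functions `_m F_(m -
1)(α_1, …, α_m; 1, …, 1; λ)` with the parameters `α_i ∈ {1 / M, …, (M - 1) / M}` (`M = 2`:
parameters `1 / 2`; for `M = 5`, `m = 4` the parameters `(1 / 5, 2 / 5, 3 / 5, 4 / 5)` are those
of the mirror quintics). The `C_i / B_i` are twists, which change the fibres only by isomorphisms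
over an extension of the base. Examples:

* `M = 2`, `D = 2`: Calabi-Yau varieties of dimension `m` and degree `(2, …, 2)` in `(ℙ¹) ^ (m +
1)`, with canonical singularities for general forms (for `m = 2` K3 surfaces, for `m = 3`
threefolds which are fibred in K3 surfaces, for `m = 4` fourfolds fibred in Calabi-Yau
threefolds with the periods `₄F₃(1/2, 1/2, 1/2, 1/2; 1, 1, 1; λ)`);
* `M = 2`, `D` arbitrary: geometric genus `D - 1`, any dimension `m`;
* in general `p_g(Y) = (D - 1) (M - 1) ^ m` if `Y` has canonical singularities, and there are no
holomorphic forms of the degrees `1, …, m - 1`: the forms of degree `m` on `Y` (sections of the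
dualizing sheaf) have the basis `ω_(j,c) = Res s ^ j ∏ u_i ^ (c_i - 1) ds ∧ du_0 ∧ ⋯ ∧ du_(m-1) /
Φ` with `0 ≤ j ≤ D - 2`, `0 < c_i < M`, where `Φ` is the equation in affine coordinates.

Let `X 0, …, X (r - 1)` be such hypersurfaces, equal or different, of equal or different
dimensions `m`, with equal or different `M`. Let `F^ν CH₀(X 0 × ⋯ × X (r - 1))_ℚ` be the group of
all classes which are mapped to zero by all projections to subproducts of dimension less than `ν`.
We show that this filtration has the properties 1-4 of a Bloch-Beilinson filtration for all
correspondences which are combinations of morphisms between such products whose components are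
constant or a factor followed by a multiplication of the coordinates `u_i` by roots of unity of
order `M`. (The projectors to the invariants of subgroups of `μ_M ^ m` are included, and so the
results hold for the quotients of the `X a` by such subgroups. For example, the quotient of `Y` by
`∏ μ_(M / M_i)` is the hypersurface with the exponents `M_i` instead of `M` for the coordinates
`u_i`, so that all parameters `α_i ∈ ℚ` between `0` and `1` are possible, e.g. those of all
fourteen hypergeometric families of Calabi-Yau threefolds with one modulus.)

In property 1 one has `F¹ = F²`, as `H¹` of (a resolution of) the hypersurfaces is zero if they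
have canonical singularities. In property 4 it is only assumed that the correspondence is zero on
the holomorphic forms of degree `ν`: the products of the forms `ω_(j,c)` on some factors of the
product such that the sum of the dimensions of these factors is `ν`. (If the singularities are not
canonical then these are the sections of the dualizing sheaves, so that more is assumed than that
the correspondence is zero on the holomorphic forms on a resolution.) The groups `CH₀` are the
Chow groups of the projective varieties, and they are equal to the Chow groups of resolutions if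
the singularities are canonical (or log terminal), as then the fibres of resolutions are
rationally chain connected.

A special case of properties 2 and 4: `∑_τ sgn(τ) ^ (m + 1) z_τ(1) × ⋯ × z_τ(n) = 0` in `CH₀(Y ^
n)_ℚ` for all zero-cycles `z_j` of degree zero on `Y` and `n > (D - 1) (M - 1) ^ m`.

Proof. By the second fundamental theorem for the symmetric groups (in a version for products of
different varieties) the properties follow from a vanishing theorem for `D` points of one
hypersurface: let `E` be a function on `Y ^ D` with values in a vector space, compatible with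
rational equivalence, on which `μ_M ^ m` acts in every variable by the same character, nontrivial
for all `u_i`; then `∑_π sgn(π) ^ (m + 1) E(q_π(1), …, q_π(D)) = 0`. To a point of `Y` with the
coordinates `x_i`, `∏ x_i = λ(s)`, one attaches the difference operator `ψ(i) ↦ (ψ(i) - x_i ψ(i +
1)) / (1 - x_i)` with coefficients of period `m`, and to `D` points the product of their
operators. The other orders of the multipliers `λ(s_j)` give other factorisations of the same
operator. Two neighbouring factors are exchanged by a birational map (as in the work of Kajiwara,
Noumi and Yamada on discrete Painlevé systems), and `E` is multiplied by the sign `(-1) ^ (m -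
1)`; this is shown by rational curves of pairs of points with the same products `(1 - x_i) (1 -
y_i)`. So the sum over all orders is a function of the operator. A count of constants (Krull's
theorem) shows that there is a rational curve in the space of the operators, on which the divisors
`∑ s_j` of degree `D` move in a pencil and the coefficients of order zero are constant; it leads
to points at which a factor is degenerate and the function is zero.
-/

set_option autoImplicit false

namespace Pool.Agent.Results.MP_08891c_ag.HypergeometricFamilies

open Pool.Agent.HGF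

theorem result {k : Type} [Field k] [IsAlgClosed k] [CharZero k] :
    -- a decreasing filtration of the zero-cycles modulo rational equivalence
    (∀ (r : ℕ) (X : Fin r → Hyp k) (ν : ℕ), (∀ a, (X a).F.Adm) →
      RatP X ℚ ≤ Fil X ν ∧ Fil X (ν + 1) ≤ Fil X ν) ∧
    -- 1: `F⁰` is everything
    (∀ (r : ℕ) (X : Fin r → Hyp k) (z : (Fin r → Crd k) →₀ ℚ), (∀ a, (X a).F.Adm) →
      (z ∈ Fil X 0 ↔ ∀ x ∈ z.support, OnP X x)) ∧
    -- 1: `F¹ = F²` is the part of degree zero
    (∀ (r : ℕ) (X : Fin r → Hyp k) (ν : ℕ) (z : (Fin r → Crd k) →₀ ℚ), (∀ a, (X a).F.Adm) →
      ν = 1 ∨ ν = 2 →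
      (z ∈ Fil X ν ↔ (∀ x ∈ z.support, OnP X x) ∧ (z.sum fun _ c => c) = 0)) ∧
    -- 2: `F^(dim + 1) = 0`
    (∀ (r : ℕ) (X : Fin r → Hyp k), (∀ a, (X a).F.Adm) →
      Fil X ((∑ a, (X a).m) + 1) = RatP X ℚ) ∧
    -- 3: correspondences respect the filtration
    (∀ (r r' : ℕ) (X : Fin r → Hyp k) (Y : Fin r' → Hyp k) (ν : ℕ) (γ : Mor X Y →₀ ℚ),
      (∀ a, (X a).F.Adm) → (∀ b, (Y b).F.Adm) → (Fil X ν).map (pushM γ) ≤ Fil Y ν) ∧
    -- 4: a correspondence which is zero on the holomorphic `ν`-forms is zero on `gr^ν`
    (∀ (r r' : ℕ) (X : Fin r → Hyp k) (Y : Fin r' → Hyp k) (ν : ℕ) (γ : Mor X Y →₀ ℚ),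
      (∀ a, (X a).F.Adm) → (∀ b, (Y b).F.Adm) → KillsForms γ ν →
      (Fil X ν).map (pushM γ) ≤ Fil Y (ν + 1)) := by
  have hV : ∀ (m : ℕ) (F : Fam k m), F.Adm → Vanish F := fun m F hF =>
    vanish_all (fun _ _ hG hi => vanish hG hi) hF
  refine ⟨fun _ X ν hX => ⟨ratP_fil hX ν, fil_anti ν⟩, fun _ X z _ => fil_zero, ?_,
    fun _ X hX => fil_top hX, ?_, ?_⟩
  · rintro r X ν z hX (rfl | rfl)
    · exact fil_one hX (by omega) (by omega)
    · exact fil_one hX (by omega) (by omega)
  · rintro r r' X Y ν γ _ hY _ ⟨z, hz, rfl⟩
    exact fil_map hY γ hz
  · rintro r r' X Y ν γ _ hY h _ ⟨z, hz, rfl⟩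
    exact fil_grad (fun b => hV _ _ (hY b)) hY h hz

end Pool.Agent.Results.MP_08891c_ag.HypergeometricFamilies
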