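import Pool.Agent.FLN.Res

/-!
# Zero-cycles on the variety of lines of a smooth cubic fourfold are finite-dimensional

Let `X` be a smooth cubic fourfold over an algebraically closed field `k` of characteristic zero, `V`
its variety of lines (a hyperkaehler fourfold). For every `m` there is `N₀` such that for all `N ≥ N₀`
and all zero-cycles `z 1, .., z N` on `V ^ m` with rational coefficients the alternating sum of the
exterior products `z τ(1) × .. × z τ(N)` is rationally equivalent to zero on `(V ^ m) ^ N`.
-/

set_option autoImplicit false

namespace Pool.Agent.Results.MP_08891c_ag.HyperkahlerFourfolds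

open Pool.Agent.CUB Pool.Agent.CUB.FLN

theorem result {k : Type} [Field k] [IsAlgClosed k] [CharZero k] {F : MvPolynomial (Fin 6) k}
    (hF : Smooth F) (m : ℕ) : ∃ N₀ : ℕ, ∀ N ≥ N₀, ∀ z : Fin N → ((Fin m → Ln F k) →₀ ℚ),
      alt z ∈ RatM F N m :=
  main_pow hF m

end Pool.Agent.Results.MP_08891c_ag.HyperkahlerFourfolds
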