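import Pool.Agent.ZIso.BbFinal

/-!
# A Bloch–Beilinson filtration on the zero-cycles on all powers of an isotrivial elliptic surface

Let `k` be an algebraically closed field of characteristic `0`, let `E` be the elliptic curve
`Y ^ 2 = X ^ 3 + A X + B` with the automorphism `σE : (X, Y) ↦ (ζ ^ 2 X, ζ ^ 3 Y)` of order
`M = 2, 4` or `6` (so `M = 2`, `A` and `B` are arbitrary, or `M = 4` and `B = 0`, or `M = 6` and
`A = 0`). Let `f` be a polynomial of degree `M * (n + 1)` all of whose roots have multiplicities
less than `M`, and let `S` be the elliptic surface `y ^ 2 = x ^ 3 + A w ^ 4 x + B w ^ 6`, where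
`w ^ M = f(t)`. So `S` is

* `y ^ 2 = x ^ 3 + A f(t) ^ 2 x + B f(t) ^ 3` for `M = 2`, `f` of degree `2 * (n + 1)`,
* `y ^ 2 = x ^ 3 + A f(t) x` for `M = 4`, `f` of degree `4 * (n + 1)`,
* `y ^ 2 = x ^ 3 + B f(t)` for `M = 6`, `f` of degree `6 * (n + 1)`,

and `S` has geometric genus `p_g = n` and irregularity `0`. All isotrivial elliptic surfaces over the
projective line with a section are of this form, except for the product of `E` with the line. For
`n = 1` the surface `S` is a K3 surface; `y ^ 2 = x ^ 3 + f(t)` with `f` of degree `12` gives a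
family of K3 surfaces with `9` parameters and general Picard number `2`.

Write `f = g ^ d` with `d * m = M`, `m > 1`, such that `C : w ^ m = g(t) = ∏ j, (t - e j) ^ a j` is
irreducible, and let `σC` be the automorphism `w ↦ ζ ^ d w` of `C`. Then `S` is (birational to) the
quotient of `E × C` by the group of order `m` generated by `(σE ^ (-d), σC)`, with `x = X w ^ 2` and
`y = Y w ^ 3`. The group `CH_0(S ^ l)_ℚ` is the quotient of the group of zero-cycles on `(E × C) ^ l`
(with coefficients in `ℚ`) by `ratS σE σC d l`. The holomorphic `2 l`-forms on `S ^ l` are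
`P(t_1, …, t_l) ∏ i, (dt_i / w_i) ∧ (dX_i / Y_i)`, where `P` is a polynomial of degree less than `n`
in every variable.

Let `F^ν CH_0(S ^ l)_ℚ` be generated by the products `z_1 × ⋯ × z_l` of zero-cycles on `S` of which
at least `ν / 2` have degree zero. We show that this filtration satisfies the conditions 1–4 of a
Bloch–Beilinson filtration for zero-cycles on all powers of `S` and all correspondences which are
combinations of morphisms `S ^ l → S ^ l'` whose components are constant or a factor followed by a
power of the automorphism `σ = (σE, 1)` of `S`; condition 4 holds in the strong form (vanishing on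
the holomorphic forms suffices) which one obtains from the generalised Hodge conjecture.

In particular `∑ τ, sgn τ • (z (τ 0) × ⋯ × z (τ n)) = 0` in `CH_0(S ^ (n + 1))_ℚ` for any classes
`z 0, …, z n` of degree zero, where `n = p_g(S)` (`Pool.Agent.ZIso.bb_voisin`). For K3 surfaces this
is Voisin's conjecture `z × z' = z' × z`.

Proof. Consider the classes in `CH_0(S ^ l)` which are killed by the projections to `S ^ (l - 1)`.
Let `M = 4` or `6`. On such classes one has `Φ_M(σE) = 0` for each coordinate in `E`, where `Φ_M` is
the cyclotomic polynomial, since the fibres of the maps from `E` to the line are rationally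
equivalent. A pencil of divisors of degree two on the line shows that the exchange of two
coordinates in `E` is multiplication by `-1`; it follows that `σE` acts in the same way on all the
coordinates in `E`. The main part of the proof is to show that `CH_0(E)_χ × Sym ^ (n + 1) CH_0(C)_χ'`
is zero in `CH_0(E × C ^ (n + 1))`, where `χ' = χ ^ d`. For this one moves the divisor `q` of degree
`n + 1` on the line under the point of `C ^ (n + 1)` in a pencil `q + s h`, together with a point
`(A(s), B(s))` of the curve `B ^ 2 = A ^ 3 + u(s) A ^ ε`, where `u(s)` is `∏ j, (1 + β j s) ^ a j`,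
`β j = h(e j) / q(e j)`, with one factor `1 + β j s` replaced by `1 + γ s`: the `6 (n + 1)`
coefficients of this equation vanish at a given point of the `6 (n + 1) + 1` dimensional affine
space of all `(h, γ, A, B)`, and by Krull's theorem there is another solution, for which `h ≠ 0`.
Over a rational covering of the `s`-line this gives a rational curve in the quotient of
`E × C ^ (n + 1)` which connects the given point with a point one of whose coordinates is a branch
point, and these points do not contribute. So the antisymmetriser on any `n + 1` of the factors of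
`S ^ l` is zero on these classes, and by the second fundamental theorem of invariant theory this
gives all relations in the group algebra of `μ_M ≀ S_l` which hold for the holomorphic forms.
-/

set_option autoImplicit false

namespace Pool.Agent.Results.MP_08891c_ag.IsotrivialPowers

universe u

open Pool.Agent.ZCyc Pool.Agent.ZIso Pool.Agent.BBF

theorem result {k : Type u} [Field k] [IsAlgClosed k] [CharZero k] {A B ζ : k} {M m d n : ℕ}
    {LE LC : Type u} [Field LE] [Field LC] [Algebra k LE] [Algebra k LC] {σE : LE ≃ₐ[k] LE}
    {σC : LC ≃ₐ[k] LC} {X Y : LE} {x y : LC} {J : Type} [Fintype J] {e : J → k} {a : J → ℕ}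
    (hE : Elliptic A B ζ σE X Y) (hM : M = 2 ∨ M = 4 ∨ M = 6) (hζ : IsPrimitiveRoot ζ M)
    (hd : d * m = M) (hm : 1 < m) (hC : Cyclic m (ζ ^ d) e a σC x y) (ha : ∀ j, a j < m)
    (hsum : ∑ j, a j = m * (n + 1)) :
    -- a decreasing filtration of the zero-cycles on `S ^ l` modulo rational equivalence
    (∀ l ν, ratS σE σC d l ≤ Fil (ratS σE σC d) 2 l ν ∧
      Fil (ratS σE σC d) 2 l (ν + 1) ≤ Fil (ratS σE σC d) 2 l ν) ∧
    -- 1: `F⁰` is everything, `F¹ = F²` is the part of degree zero (the Albanese variety is zero)
    (∀ l, Fil (ratS σE σC d) 2 l 0 = ⊤) ∧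
    (∀ l z, z ∈ Fil (ratS σE σC d) 2 l 1 ↔ (z.sum fun _ c => c) = 0) ∧
    (∀ l, Fil (ratS σE σC d) 2 l 2 = Fil (ratS σE σC d) 2 l 1) ∧
    -- 2: `F^(dim + 1) = 0`
    (∀ l, Fil (ratS σE σC d) 2 l (2 * l + 1) = ratS σE σC d l) ∧
    -- 3: correspondences respect the filtration
    (∀ l l' ν (γ : Mor (Place k LE × Place k LC) (Fin M) l l' →₀ ℚ),
      (Fil (ratS σE σC d) 2 l ν).map (pushM (actS σE) γ) ≤ Fil (ratS σE σC d) 2 l' ν) ∧
    -- 4: a correspondence which is zero on the holomorphic `ν`-forms is zero on `gr^ν`
    (∀ l l' ν (γ : Mor (Place k LE × Place k LC) (Fin M) l l' →₀ ℚ), KillsForms ζ n γ ν →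
      (Fil (ratS σE σC d) 2 l ν).map (pushM (actS σE) γ) ≤ Fil (ratS σE σC d) 2 l' (ν + 1)) :=
  ⟨fun _ ν => ⟨rat_le_Fil 2 ν, Fil_anti 2 ν⟩, fun _ => Fil_zero 2,
    fun _ z => Fil_one 2 (by norm_num) (fun z hz => ratS_deg z hz) z,
    fun _ => Fil_two 2 le_rfl, fun _ => Fil_top 2,
    fun _ _ ν γ => map_pushM_le 2 ν (fun f => ratS_map f) γ,
    fun _ _ ν γ hγ => bb_grad hE hM hζ hd hm hC ha hsum γ ν hγ⟩

end Pool.Agent.Results.MP_08891c_ag.IsotrivialPowers
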