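import Pool.Agent.KMix.Main

/-!
# The zero-cycles on products of K3 surfaces and varieties of lines are finite-dimensional

Let `k` be an algebraically closed field of characteristic zero, and let `Y` be the product of
varieties `X 0, …, X (m - 1)`, each of them (equal or different) a smooth quartic surface, a double
plane with a smooth branch curve of degree six, or the variety of lines of a smooth cubic fourfold.
The first two are the general K3 surfaces of degrees four and two (19 parameters, Picard number `1`
in general), the varieties of lines are hyperkähler fourfolds (20 parameters). Then for all
sufficiently large `N` and all zero-cycles `z 0, …, z (N - 1)` on `Y`, of any degrees, the cycle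
`∑ τ, sgn(τ) z (τ 0) × ⋯ × z (τ (N - 1))` is rationally equivalent to zero on `Y ^ N` (with rational
coefficients), i.e. the map `Λ ^ N CH₀(Y) → CH₀(Y ^ N)` is zero: Kimura's finiteness for
zero-cycles on all products.

Proof.
* Quartic surfaces (`Pool/Agent/QRT`): the plane sections with two double points, which we construct
  by deforming a special quartic surface, cover the surface by a family of curves of genus one, and
  we apply the theorem on families of curves of genus one (`Pool/Agent/GT`), or an isotrivial version.
* Double planes (`Pool/Agent/Kim`): the double coverings of the tangent lines of the branch curve are
  curves of genus one.
* Varieties of lines (`Pool/Agent/CUB`, `Pool/Agent/FLN`): the lines on a hyperplane section with a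
  double point are parametrised by the symmetric square of the curve of the lines through this
  point; we show that one-cycles of degree zero on the cubic fourfold are finite-dimensional, and
  reconstruct the class of a point of the variety of lines from the transversals of pairs of lines.
* Products (`Pool/Agent/KMix`): the second fundamental theorem of invariant theory for words with
  letters of different kinds.
-/

set_option autoImplicit false

namespace Pool.Agent.Results.MP_08891c_ag.K3Products

open Pool.Agent.GT Pool.Agent.KMix

/-- **Zero-cycles on products of K3 surfaces of degrees four and two and of varieties of lines.**
`X a` are smooth quartic surfaces, double planes or varieties of lines of smooth cubic fourfolds. The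
alternating sums of the exterior products of sufficiently many zero-cycles on the product of the
`X a` are rationally equivalent to zero. -/
theorem result {k : Type} [Field k] [IsAlgClosed k] [CharZero k] {m : ℕ} (X : Fin m → Var k)
    (hX : ∀ a, (X a).Smooth) : ∃ N₀ : ℕ, ∀ N ≥ N₀,
    ∀ z : Fin N → ((∀ a, (X a).Pts k) →₀ ℚ),
      ∑ τ : Equiv.Perm (Fin N), ((Equiv.Perm.sign τ : ℤˣ) : ℤ) • ext (fun j => z (τ j)) ∈
        KMix.Rat X N :=
  KMix.main X hX

end Pool.Agent.Results.MP_08891c_ag.K3Products
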