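import Pool.Agent.KSup.Fac

/-!
# Kimura's finiteness for zero-cycles: all K3 surfaces, all surfaces covered by curves of genus one

Let `k` be an algebraically closed field of characteristic zero. We consider projective varieties
`X` over `k` of the following kinds (`Var.Adm`).

(a) `X` is a closed subset of a projective space which is the closure of a one-parameter family of
curves of genus at most one: there are an elliptic curve `E : y ^ 2 = x ^ 3 - 3 α x + B` over the
algebraic closure `Om k` of `k(t)` and a rational map `φ = (G_i(x) + H_i(x) y)` from `E` to `X`,
defined over `Om k`, whose image is dense (`Fam`). So `X` is any curve (`φ` is constant), or any
surface which is covered by rational curves or by curves of genus one. Singularities are allowed.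

(b) `X` is a smooth quartic surface, a double plane with a smooth branch curve of degree six, or the
variety of lines of a smooth cubic fourfold.

We say that `X` is even (`Var.Even`) if it is of the kind (b), or of the kind (a) such that moreover one
member of the family, and one multisection, consist of rationally equivalent points (`IsCover`).

Let `P` be a product of varieties of these kinds, equal or different, and let `Y` be `P` itself, or
any projective variety which is the image of `P` under a surjective morphism `F` (`IsMor`: `F` maps
curves to curves). Then the zero-cycles on `Y` have Kimura's finiteness property (`Kim`): every
zero-cycle with rational coefficients is the sum of a cycle in `A` and a cycle in `B`, for two vector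
spaces `A` and `B` of zero-cycles such that for all `n ≥ N` (for a number `N`) the cycles

  `∑ τ, sgn(τ) z (τ 0) × ⋯ × z (τ (n - 1))`, all `z j ∈ A`, and
  `∑ τ, z (τ 0) × ⋯ × z (τ (n - 1))`, all `z j ∈ B`

(sums over all permutations) are rationally equivalent to zero on `Y ^ n`, i.e. `Λ ^ n A` and
`Sym ^ n B` are mapped to zero in `CH₀(Y ^ n)`. If all factors are even then `B = 0`:
the map `Λ ^ n CH₀(Y) → CH₀(Y ^ n)` is zero for large `n`. For `k = ℂ` the theorem is about all
complex points, i.e. about the points over a universal domain.

The following known facts show what this means; they are not formalised.

* K3 surfaces. By the theorem of Bogomolov and Mumford (Mori and Mukai 1983) every projective K3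
surface `S` is even. For a primitive ample class `H` there is a one-parameter family of curves in
`|H|` all of whose components have genus at most one, with a member `D₀` which is a sum of rational
curves. The moving components have genus one (`S` is not covered by rational curves), they have a
limit which consists of components of `D₀` (one member of the family), and they meet `D₀`, which is
connected (one multisection). So `Λ ^ n CH₀(Y) → CH₀(Y ^ n)` is zero for large `n` for all products `Y`
of projective K3 surfaces (of all degrees, with all Picard numbers), of images of K3 surfaces, and of
varieties of lines of cubic fourfolds; also for the Hilbert schemes `S^[n]`, because
`CH₀(S^[n]) = CH₀(S ^ n / S_n)`.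
* Surfaces which are not of general type. A smooth projective surface of Kodaira dimension at most one
is birational to a ruled surface, a K3 surface, an elliptic surface (Enriques and bielliptic surfaces
are elliptic) or an abelian surface; the first three are covered by curves of genus at most one, which
is a birational property. Abelian varieties are images of products of curves, and `CH₀` of smooth
projective varieties is a birational invariant. So Kimura's finiteness holds for the zero-cycles on
all smooth projective surfaces which are not of general type, on all products of such surfaces,
curves and abelian varieties, and on all images of these products.

Proof.
* The family of elliptic curves over `Om k` (`Pool/Agent/GT`, `Pool/Agent/QRT`). A fibre is covered by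
the curve `w ⁶ = V`, `Σ ² = V ² + B V + α ³`, whose points are the sides (matrices of degree one) of a
polygon. Two neighbouring sides can be exchanged by refactorisation of the product of two matrices,
which changes the sign of the class. So the alternating sum for `n` points only depends on the
product of all matrices, and if `n` is large there is a rational curve of such products, along which
the points of the base move, until the class is zero because one of the fibres is singular. For
isotrivial families there is another argument.
* Every point of `X` is the value of a point of `E` (`Pool/Agent/KAll/Value.lean`). So the zero-cycles
are generated by the values of cycles of degree zero on the fibres (even; for a constant family: the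
differences of such values at two places are even, the values in one fibre are odd), and by the values
of one multisection (one class, and an odd part: a quotient of the Jacobian of a curve).
* Products (`Pool/Agent/KSup`): a word in even and odd letters is multiplied by the sign of the
permutation of its odd letters; the second fundamental theorem of invariant theory for words with
letters of different kinds gives the theorem for products. Images: push-forward of cycles.
* The kinds (b): `Pool/Agent/QRT`, `Pool/Agent/Kim`, `Pool/Agent/CUB`, `Pool/Agent/FLN`. The plane
sections of a quartic surface with two double points, and the double coverings of the tangent lines
of the branch curve, are curves of genus one. The lines on a hyperplane section with a double point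
of a cubic fourfold are parametrised by the symmetric square of the curve of the lines through this
point; the class of a point of the variety of lines is reconstructed from the transversals of pairs
of lines.
-/

set_option autoImplicit false

namespace Pool.Agent.Results.MP_08891c_ag.KimuraFiniteness

open Pool.Agent Pool.Agent.KAll

/-- **Kimura's finiteness for the zero-cycles on products of varieties which are covered by curves of
genus at most one, quartic surfaces, double planes, varieties of lines, and on their images.**
`A` and `B` are vector spaces of zero-cycles on the product of the varieties `X a` such that every
cycle is the sum of a cycle in `A` and a cycle in `B`, the alternating sums of the exterior products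
of sufficiently many cycles in `A`, and the symmetric sums of the exterior products of sufficiently
many cycles in `B`, are rationally equivalent to zero; `B` is zero if all `X a` are even; and the
images of `A` and `B` have the same properties for every projective variety `Y` with a surjective
morphism `F` from the product to `Y`. -/
theorem result {k : Type} [Field k] [IsAlgClosed k] [CharZero k] {m : ℕ} (X : Fin m → Var k)
    (hX : ∀ a, (X a).Adm) :
    ∃ A B : Submodule ℚ ((∀ a, (X a).Pts k) →₀ ℚ),
      Kim (fun N => Rat X N) A B ∧ ((∀ a, (X a).Even) → B = ⊥) ∧
      ∀ (n : ℕ) (Y : Set (MvPolynomial (Fin (n + 1)) k)) (F : (∀ a, (X a).Pts k) → GT.Pt Y k),
        IsMor X Y F → Function.Surjective F → Kim (fun N => GT.Rat Y (Fin N))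
          (A.map (Finsupp.lmapDomain ℚ ℚ F)) (B.map (Finsupp.lmapDomain ℚ ℚ F)) :=
  KSup.final X hX

end Pool.Agent.Results.MP_08891c_ag.KimuraFiniteness
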