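import Pool.Agent.MPC.Algebra

/-!
# Zero-cycles on subvarieties of products of projective spaces: holomorphic forms decide

Let `k` be an algebraically closed field of characteristic `0`, let `f l` (`l < n`) be polynomials in
`r` groups of variables `x i j` (`i < r`, `j < N i`), multihomogeneous, of degree `δ l i` in the
variables of the `i`-th group, `D i = ∑ l, δ l i`, and let `X` be the closed subset of the product of
the projective spaces of dimensions `N i - 1` given by the equations `f l (x i j ^ m) = 0`. The group
`G = ∏ i, (ℤ/m)^(N i)` acts on `X` by multiplication of the coordinates by powers of `ζ`. For general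
`f l` with all `δ l i > 0` this is a smooth complete intersection with the canonical sheaf
`O(D i * m - N i)`, the holomorphic forms of positive degree on `X` are (by the adjunction formula and
the theorem of Lefschetz) the residues of `x ^ b / (∏ l, f l)`, for `b ≥ 1` and
`∑ j, b i j = D i * m` (in logarithmic notation), and `g` in `G` multiplies this form by
`ζ ^ (∑ i j, b i j * g i j)`. If some of the `δ l i` vanish then `X` has the projections to the closed
subsets `X I` of the products of the projective spaces with `i ∈ I`, for subsets `I` of `{i < r}`,
given by the equations which only depend on the variables of the groups in `I`, and we have to consider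
the inverse images of the forms of the highest degree on all the `X I` (for example, for a product
`X = X₁ × X₂` these are the forms on `X₁`, on `X₂`, and on `X₁ × X₂`).

We show: if an element `α` of the group algebra `ℚ[G]` kills all these forms then it kills the
zero-cycles of degree zero in `CH_0(X) ⊗ ℚ`, under the following conditions.
* `m ≤ 5` or `m = 7` or `D i * m < 2 * N i` for all `i`;
* `m ≤ 2` or `D i * m < N i + m` for all `i` but one.

For example, all `X` with `m`-th powers (for all `m`) are covered whose canonical sheaf is `O(k i)`
with `k i < N i` for all `i` and `k i < m` for all `i` but one, in particular all Fano and all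
Calabi–Yau varieties of this form. For one projective space `P^(N - 1)` (`r = 1`) the conditions are:
`m ≤ 5` or `m = 7` or `D * m < 2 * N`. If `H` is a subgroup of `G` such that the quotient `X / H` has
no nonzero holomorphic forms of positive degree, then `α = ∑ h ∈ H, h` satisfies the condition, and
`CH_0(X / H) ⊗ ℚ = ℚ`. This is Bloch's conjecture for the varieties `X / H`. In general the theorem is
what the conditions on a Bloch–Beilinson filtration (condition 4 for zero-cycles and for the
correspondences in `ℚ[G]`) together with the generalised Hodge conjecture predict.

The points of a smooth projective curve are the places of its function field. The space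
`ratEquiv ℚ X` is spanned by the cycles `φ_* (π^* a) - φ_* (π^* b)`, where `π` is a finite Galois
covering of the line by a smooth projective curve, `φ` a morphism from this curve to `X`, and `a`,
`b` are points of the line.

Proof. Let `χ` be a character of `G` with exponents `a i j` such that no conjugate of `χ` occurs in
the spaces of forms.

* Suppose that there are numbers `d i`, not all zero, such that the repetition of the sequence of the
  `a i j ≠ 0` in which each `a i j` occurs `d i` times can be divided into zero-sum blocks whose number
  `e` is larger than `∑ i, d i * (D i + s i - N i)`, where `s i` is the number of the `j` with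
  `a i j ≠ 0`. We consider `X` as a covering of the variety `Y` of the zeros of the `f l`, and connect
  each point of `Y` by a rational curve in `Y`, of degree `d i` in the `i`-th factor, to a point on one
  of the hyperplanes `y i j = 0`, `a i j ≠ 0`, such that for each block the curve meets the hyperplanes
  of this block (all but one of them, for one of the blocks) in one point; such a curve exists because
  there are more parameters than equations. The intermediate covering of the curve which belongs to
  `χ` is rational, and this gives a rational equivalence between the `χ`-part of the given point and
  the `χ`-part of a point which is fixed by an element of the group on which `χ` is not trivial; so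
  both are zero (`vanish`).
* Such blocks exist (`exists_pattern`). For `m ≤ 5` and `m = 7` a sequence over `ℤ/m` with sum zero can
  be divided into as many zero-sum blocks as the minimum of `∑ j, ⟨u * a j / m⟩` over all units `u`.
  In general, if the sequence is long, we show that a repetition of it can be divided into
  sufficiently many blocks (`frac`). By duality in linear programming this is a statement on the
  functions on `ℤ/m` whose sum is at least `1` on all minimal zero-sum sequences; we show that, in
  the optimal case, such a function is `x ↦ ⟨u * x / m⟩` for some unit `u`, or its values at `x ≠ 0`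
  are at least `2 / m`.
* If the character is trivial on one of the groups `(ℤ/m)^(N i)` and `D i < N i` then the points of a
  fibre of the projection which forgets the `i`-th factor have the same `χ`-part (`factor`), and this
  factor, with all equations in which it occurs, can be dropped (`drop`). This gives the conditions for
  the sets `I` of the remaining factors.
-/

set_option autoImplicit false

namespace Pool.Agent.Results.MP_08891c_ag.ProductQuotients

universe u

open Pool.Agent.MPC
open scoped LinearAlgebra.Projectivization

/-- An element `α` of the group algebra `ℚ[∏ (ℤ/m)^(N i)]` which kills, for all nonempty sets `I` of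
factors, all monomials `x ^ b` with `b i j ≥ 1` for `i ∈ I`, `b i j = 0` for `i ∉ I` and
`∑ j, b i j = m * ∑ δ l i` for `i ∈ I` (the sum over the equations which only depend on the variables of
the groups in `I`), kills all zero-cycles of degree zero in `CH_0(X) ⊗ ℚ`. -/
theorem result {k : Type u} [Field k] [IsAlgClosed k] [CharZero k] {m : ℕ} [NeZero m]
    {ζ : kˣ} (hζ : IsPrimitiveRoot (ζ : k) m) {r n : ℕ} {N : Fin r → ℕ}
    {f : Fin n → MvPolynomial (Σ i, Fin (N i)) k} {δ : Fin n → Fin r → ℕ}
    (hf : ∀ l, IsMultihomogeneous (f l) (δ l))
    (hm : m ≤ 5 ∨ m = 7 ∨ ∀ i, (∑ l, δ l i) * m < 2 * N i)
    (hm' : m ≤ 2 ∨ ∃ i₀, ∀ i, i ≠ i₀ → (∑ l, δ l i) * m < N i + m)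
    (α : ((Σ i, Fin (N i)) → ZMod m) → ℚ)
    (hα : ∀ I : Finset (Fin r), I.Nonempty → ∀ b : (Σ i, Fin (N i)) → ℕ,
      (∀ x, x.1 ∈ I → 1 ≤ b x) → (∀ x, x.1 ∉ I → b x = 0) →
      (∀ i ∈ I, ∑ j, b ⟨i, j⟩ = (∑ l with ∀ i' ∉ I, δ l i' = 0, δ l i) * m) →
      ∑ g, (α g : k) * (ζ : k) ^ (∑ x, (b x : ZMod m) * g x).val = 0)
    (z : (∀ i, ℙ k (Fin (N i) → k)) →₀ ℚ) (hz : ∀ p ∈ z.support, p ∈ Zeros m f)
    (hdeg : z.sum (fun _ c => c) = 0) :
    ∑ g, α g • z.mapDomain (act ζ g) ∈ ratEquiv ℚ (Zeros m f) :=
  algebra_cycle (J := fun i => Fin (N i)) hζ hf (by simpa using hm) (by simpa using hm') α hα z hz
    hdeg

end Pool.Agent.Results.MP_08891c_ag.ProductQuotients
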