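import Pool.Agent.CYC.Wrap
import Pool.Agent.CYC.Core
import Pool.Agent.CYC.AlgI

/-!
# Zero-cycles on products of cyclic coverings and of curves with automorphisms

We prove the conditions of Bloch and Beilinson for the zero-cycles on all products of varieties of the
following class, for the correspondences given by morphisms. Let `k` be an algebraically closed field of
characteristic `0`. The class (`Vr`) consists of pairs `(X, s)` of a projective variety and an automorphism:

(a) (`Cv`, `OkC`) `X` is any smooth projective curve, `s` is an automorphism of the order `1`, `2`, `3`, `4` or
`6` with a fixed point; for the orders `4` and `6` all fixed points of the powers of `s` which are not the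
identity have to be fixed points of `s`. The genus of the quotient `X / s` is arbitrary.

(b) (`Wv`, `OkW`) `X` is the covering `w ^ m = F(x) G(x) ^ (m - 1)` of the projective space of dimension
`n ≥ 2`, `m = 2, 3, 4, 6`, where `F` and `G` are any forms `≠ 0` (they may be constant, and have multiple
factors) such that `deg F + (m - 1) deg G` is positive and divisible by `m`; `s` is `w ↦ ζ w`.

The points of a product `X = X_0 × ⋯ × X_(r - 1)` are given by coordinates (`Crd`, `On`; a curve is given by
its function field, and its points are the places), the zero-cycles are the finite combinations of points with
rational coefficients. The cycles in `ratEq X` are those rationally equivalent to zero: the combinations of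
the push-forwards of the divisors of the rational functions on smooth projective curves (with function fields
`K`) by morphisms to `X` (points with coordinates in `K`: `CrdF`, `OnF`; their values: `IsVal`).

The filtration (`Fil`). Choose a fixed point of `s` as the base point of every factor (`Vr.o`). `F^ν` consists
of the zero-cycles whose images under all projections of `X` to subproducts of dimension less than `ν` (the
other coordinates are replaced by the base points, `proj`) are rationally equivalent to zero.

The correspondences. `Mor X Y` is the set of the morphisms from `X` to `Y` all of whose components are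
constant or a factor of `X` (equal to the factor of `Y`) followed by a power of `s`: projections, diagonals,
permutations, inclusions, automorphisms and their compositions. A correspondence is a combination `γ` of such
morphisms with rational coefficients.

The holomorphic forms. On a curve with an automorphism `s` the dimension of the space of the differentials
`ω` with `s^* ω = t ω` is given by the formula of Chevalley and Weil (`Cv.InD`). On a covering the forms of
degree `n` are the `P G ^ (j - 1) / w ^ j Ω`, `0 < j < m`, `Ω = ∑ ± x_i dx_0 ⋯ dx_n` (without `dx_i`), where
`P` is a form of degree `q - n - 1`, `q = (j deg F + (m - j) deg G) / m`, and `s^* = ζ ^ (- j)` on this form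
(`Wv.InD`). These are the holomorphic `n`-forms on a resolution if `F G = 0` is a reduced divisor with
normal crossings, and for `0 < i < n` there are no holomorphic `i`-forms. (For other `F`, `G` the resolutions
can have less forms; condition 4 is stated for the forms of this list.) The forms on the products are the
products of forms on the factors (`IsForm`), and `pullCoef` describes the pull-back.

The theorem. 1. `F^0` is the group of all zero-cycles, `F^1` consists of the zero-cycles of degree `0`, and
`F^2` is the kernel of the Albanese map: those cycles in `F^1` whose images in the Jacobians of the curves
among the factors are zero. 2. `F^(dim X + 1)` consists of the cycles rationally equivalent to zero. 3.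
`γ_* F^ν(X) ⊆ F^ν(Y)` for all correspondences `γ` and all `ν`. 4. If `γ^*` is zero on the `ν`-forms
(products of the forms described above), then `γ_* F^ν(X) ⊆ F^(ν + 1)(Y)`; here we assume that no covering
of dimension `≥ 2` occurs twice among the factors of `X` (`NoRep`; several copies with different labels are
allowed, but then there are no morphisms which exchange them; a curve may occur any number of times).

Examples for condition 4 (`ν = dim X`, `γ` a combination of automorphisms of `X`). For one covering `W` with
`p_g = 0` it says that all points are rationally equivalent, which is known (`W` is birational to a Fano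
hypersurface). The new case is that of two or more factors.

(1) Let `Z` be a smooth sextic fourfold `f(x_0, x_1, x_2) = g(y_0, y_1, y_2)` in the projective space of
dimension `5` (a Calabi-Yau variety), `W`: `w ⁶ = f(x)`, `W'`: `w' ⁶ = g(y)`. `Z` is birational to
`(W × W') / μ_6`, `(x, w; y, w') ↦ (w' x, w y)`, and `CH_0` with rational coefficients is a birational
invariant of varieties with quotient singularities. The eigenspaces of the `2`-forms on `W` for `ζ ^ (- j)`,
`0 < j < 6`, have the dimensions `0, 0, 1, 3, 6`. By the theorem the products of the parts of `CH_0(W)` and
`CH_0(W')` which belong to inverse characters of the orders `3` and `6` are zero. So the zero-cycles of degree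
zero on `Z` come from the characters of order `2`: they are a part of `CH_0(S × S')`, where `S` and `S'` are
the K3 surfaces `v ² = f`, `v ² = g`. In particular `p + ι(p)`, where `ι(x, y) = (x, -y)`, is independent of
the point `p` of `Z`: all points of the quotient `Z / ι` (of Kodaira dimension `0`, without holomorphic forms
of positive degree) are rationally equivalent.

(2) Let `W`, `W'` be two triple coverings of projective spaces of dimensions `n`, `n'`, `w ³ = F G ²`,
`w' ³ = F' G' ²`, with `deg F + 2 deg G ≤ 3 n`, `deg F' + 2 deg G' ≤ 3 n'`. For example, if `n = 2`, all
triple planes `w ³ = F_6(x_0, x_1, x_2)`, `p_g = 3`, and the quartic surfaces `w ³ G_1(x) = F_4(x)` (replace `w`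
by `w / G_1`; K3 surfaces, a family with `8` moduli); if `n = 3` all `w ³ = F_9`, `p_g = 10`, and the quintic
threefolds `w ³ G_2(x) = F_5(x)` (with one node, `h^(3, 0) = 1`). The forms of degree `n` on `W` have the
eigenvalue `ζ` for `s^*`, those on `W'` as well, so there are no holomorphic forms of positive degree on
`V = (W × W') / μ_3` (diagonal action), and the theorem says that all points of this variety are rationally
equivalent, with rational coefficients: `∑ i, s^i z × s^i z' = 0` in `CH_0(W × W')` for all zero-cycles `z`
on `W`, `z'` on `W'` of degree `0`. If `F`, `F'` are smooth forms of degree `9`, `n = n' = 3`, `G = G' = 1`,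
then `V` is of general type (of dimension `6`): the `r`-canonical forms are given by the bihomogeneous
functions `f(x, w, x', w')` of bidegree `(2 r, 2 r)` of order at least `r` along `w = w' = 0`, for example
`(w w') ^ (r / 2) P(x, x')`, `P` of bidegree `(r / 2, r / 2)`. If `F`, `F'` are sextics, `n = n' = 2`, then `V` is
birational to the quotient `Z / ι` in (1). (If `W'` is the elliptic curve `w ³ = F_3(x_0, x_1)` and `G = 1`
then `V` is birational to the Fano hypersurface `F_3(u, v) = F(x)`, and the statement is known; this is the
geometry of the half twists of Hodge structures of van Geemen and Izadi.)

(3) Let `C` be a curve with an automorphism of order `3`, `p` and `q` the dimensions of the two eigenspaces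
for `t ≠ 1` in the differentials. Then the symmetric products `z_1 * ⋯ * z_a`, `a > max(p, q)`, of eigenvectors
`z_i` (for one of the two characters) in `CH_0(C)` are zero in `CH_0(C ^ a)`; if `q < a ≤ p` the product of
`z_1 * ⋯ * z_a`, for one of the two characters, and of an eigenvector for one of the two characters in
`CH_0(W)`, where `W` is as in (2), is zero.

The proof. (i) By the second fundamental theorem of invariant theory for several dimension vectors and a
Galois argument for the field of the `12`-th roots of unity condition 4 is reduced to the core theorem
(`Core`): a class function on a product of powers `X_β ^ (a_β)`, symmetric in every block, with the eigenvalues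
`t_β`, is zero if for every `s` prime to `12` the dimension of the eigenspace of `t_β ^ s` in the forms on
`X_β` is less than `a_β` for some `β`. For one block this gives: small for `t` and for `t⁻¹`; or there are
two blocks of orders `4`, `4` or in `{3, 6}`, one small for `t_β`, the other one for `t_β'⁻¹`
(`cases12`). (ii) The points of a power `C ^ a` of a curve, for the eigenvalue `t` of order `m`, give
points of a covering `w ^ m = F G ^ (m - 1)` of a linear system (a projective space of dimension `a - g(C/s)`);
here `C` is small if and only if `deg F + (m - 1) deg G ≤ m n` (`Red`, `Rl*`, `Weil`), so we can assume that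
all blocks are coverings. (iii) One block: if `deg G ≤ deg F` then through every
point of the projective space there is a line on which `F = A ^ m G + c T ^ (deg F)` for a polynomial `A` in
the coordinate `T` (`single`). (iv) Two blocks, the pair lemma (`CYU`, `CYS`). Through every point `T = 0` of
the projective space there is a line on which the right hand side is of the form `A ^ 3 + B ^ 3 + c T ^ (3 e)`
(if `m = 3`), `A ^ 4 + B ^ 2 + c T ^ (4 e)` (if `m = 4`), `A ^ 3 + B ^ 2 + c T ^ (6 e)` (if `m = 6`), where
`A(0)` and `B(0)` can be prescribed, because `e ≤ n`. So there are curves on the covering over the elliptic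
curve with complex multiplication. The functions on this curve, its translations and its automorphisms lead
to a sum of contributions of which all but one cancel, because the two variables belong to inverse characters.
-/

set_option autoImplicit false

noncomputable section

namespace Pool.Agent.Results.MP_08891c_ag.ProductsOfCyclicCoverings

open Pool.Agent.CYC Pool.Agent.ZCyc Pool.Agent.Dess

/-- **The conditions of Bloch and Beilinson for the zero-cycles on products of cyclic coverings and
curves with automorphisms.** -/
theorem result {k : Type} [Field k] [IsAlgClosed k] [CharZero k] :
    -- a decreasing filtration of the zero-cycles modulo rational equivalence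
    (∀ (m : ℕ) (X : Fin m → Vr k) (ν : ℕ), ratEq X ≤ Fil X ν ∧ Fil X (ν + 1) ≤ Fil X ν) ∧
    -- 1: `F⁰` is everything
    (∀ (m : ℕ) (X : Fin m → Vr k) (z : Pts m k →₀ ℚ), z ∈ Fil X 0 ↔ ∀ p ∈ z.support, OnP X p) ∧
    -- 1: `F¹` is the part of degree zero
    (∀ (m : ℕ) (X : Fin m → Vr k) (z : Pts m k →₀ ℚ), z ∈ Fil X 1 ↔
      (∀ p ∈ z.support, OnP X p) ∧ (z.sum fun _ c => c) = 0) ∧
    -- 1: `F²` is the kernel of the Albanese map
    (∀ (m : ℕ) (X : Fin m → Vr k) (z : Pts m k →₀ ℚ), z ∈ Fil X 2 ↔
      z ∈ Fil X 1 ∧ ∀ j, (X j).dim = 1 → toFac j z ∈ ratEq (fun _ : Fin 1 => X j)) ∧
    -- 2: `F^(dim + 1) = 0`
    (∀ (m : ℕ) (X : Fin m → Vr k), Fil X ((∑ j, (X j).dim) + 1) = ratEq X) ∧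
    -- 3: correspondences respect the filtration
    (∀ (m m' : ℕ) (X : Fin m → Vr k) (Y : Fin m' → Vr k) (ν : ℕ) (γ : Mor X Y →₀ ℚ),
      (Fil X ν).map (pushM γ) ≤ Fil Y ν) ∧
    -- 4: a correspondence which is zero on the `ν`-forms is zero on `gr^ν`
    (∀ (m m' : ℕ) (X : Fin m → Vr k) (Y : Fin m' → Vr k) (ν : ℕ) (γ : Mor X Y →₀ ℚ),
      NoRep X → KillsForms γ ν → (Fil X ν).map (pushM γ) ≤ Fil Y (ν + 1)) :=
  main_of_graded (graded core)

end Pool.Agent.Results.MP_08891c_ag.ProductsOfCyclicCoverings
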