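import Mathlib
import Pool.Agent.BBP.Thm
import Pool.Agent.BBP.Swap
import Pool.Agent.BBQ.CharsG
import Pool.Agent.WBP.CharK

/-!
# A Bloch-Beilinson filtration on the zero-cycles of all products of weighted diagonal complete
intersections

We consider varieties `Y = X / H`. Here `X` is a smooth complete intersection of dimension `n ≥ 1`
of `r` diagonal hypersurfaces `∑ j, c i j * x j ^ d = 0`, `i < r`, in the complex projective space
with `N = n + r + 1` homogeneous coordinates (it is smooth if all `r × r` minors of `c` are not zero),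
and `H` is a group of automorphisms `x ↦ (ζ j * x j)_j`, `ζ j ^ d = 1`, which contains those with
`ζ j ^ w j = 1`, for some weights `w j < d` dividing `d`. So the coordinates `y j = x j ^ w j` map
`X` to the complete intersection `∑ j, c i j * y j ^ (d / w j) = 0` in the weighted projective space
`ℙ(w)`, and `Y` is a quotient of this complete intersection. Let `k = r d - ∑ w j`. We assume that
`k + w j < d` for all `j`, and that `k ≤ 0` or `k` is less than the number of the weights `1`. If
`r > 1` and the weights are not all `1` then we also assume that every sequence of positive multiples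
of the weights with sum `r d` can be divided into `r` parts with sum `d`.

Let `Y 1, …, Y t` be such varieties, of different degrees, dimensions and so on. For every product
`Y ^ m = ∏ (Y s) ^ (m s)` let `F^ν CH₀(Y ^ m)_ℚ` be generated by the products of zero-cycles on the
factors such that the sum of the dimensions of the factors on which they have degree zero is at
least `ν`. This filtration has the properties 1-4 of a Bloch-Beilinson filtration for all
correspondences which are combinations of morphisms `Y ^ m → Y ^ m'` with components constant or a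
factor followed by a diagonal automorphism. One case has to be excluded: among the varieties of the
family with `d` odd, `k > 0` and at most `k + r` weights `1`, there are some with a degree divisible
by `3` and others with a degree not divisible by `3`.
-/

set_option autoImplicit false

namespace Pool.Agent.Results.MP_08891c_ag.ProductsOfQuotients

open Pool.Agent.BBM Pool.Agent.BBP

/-- The conditions on the variety `Y s = X s / H s` of the family, with the weights `w`. -/
structure Member {S : Type} (Φ : Fam S) (s : S) (w : Fin (Φ.N s) → ℕ) : Prop where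
  /-- the dimension and the number of equations -/
  dim : 1 ≤ Φ.n s ∧ 1 ≤ Φ.r s ∧ Φ.N s = Φ.n s + Φ.r s + 1
  /-- all maximal minors of the matrix of the coefficients are nonzero -/
  smooth : ∀ f : Fin (Φ.r s) → Fin (Φ.N s), Function.Injective f →
    (Matrix.of fun i j => Φ.c s i (f j)).det ≠ 0
  /-- the weights are proper divisors of the degree -/
  weights : ∀ j, w j ∣ Φ.d s ∧ w j < Φ.d s
  /-- the group contains the automorphisms `x ↦ (ζ j * x j)_j` with `ζ j ^ w j = 1` -/
  group : ∀ ζ : Φ.G s, (∀ j, ζ j ^ w j = 1) → ζ ∈ Φ.H s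
  /-- `k + w j < d`, where `k = r * d - ∑ j, w j` -/
  bound : ∀ j, Φ.r s * Φ.d s + w j < ∑ j, w j + Φ.d s
  /-- `k ≤ 0`, or `k` is less than the number of weights `1` -/
  ones : Φ.r s * Φ.d s < ∑ j, w j + max 1 (Finset.univ.filter fun j => w j = 1).card
  /-- divisions into parts with sum `d` -/
  parts : Φ.r s = 1 ∨ (∀ j, w j = 1) ∨ ∀ b : Fin (Φ.N s) → ℕ, (∀ j, 0 < b j) →
    (∀ j, w j ∣ b j) → ∑ j, b j = Φ.r s * Φ.d s →
      ∃ B : Fin (Φ.N s) → Fin (Φ.r s), ∀ i, ∑ j with B j = i, b j = Φ.d s

/-- `d` is odd, `k > 0` and the number of the weights `1` is at most `k + r` (if all weights are `1`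
then this means that `r = 1` and `d = 2 * N - 1`). -/
def Special {S : Type} (Φ : Fam S) (s : S) (w : Fin (Φ.N s) → ℕ) : Prop :=
  Odd (Φ.d s) ∧ ∑ j, w j < Φ.r s * Φ.d s ∧
    ∑ j, w j + (Finset.univ.filter fun j => w j = 1).card ≤ Φ.r s * Φ.d s + Φ.r s

theorem result {S : Type} [Fintype S] [DecidableEq S] (Φ : Fam S)
    (w : ∀ s, Fin (Φ.N s) → ℕ) (h : ∀ s, Member Φ s (w s))
    (h3 : ∀ s s', Special Φ s (w s) → Special Φ s' (w s') → 3 ∣ Φ.d s → 3 ∣ Φ.d s') :
    -- a decreasing filtration of the zero-cycles on `Y ^ m` modulo rational equivalence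
    (∀ m ν, Φ.ratEq ℚ m ≤ Fil (Φ.ratEq ℚ) Φ.n m ν ∧
      Fil (Φ.ratEq ℚ) Φ.n m (ν + 1) ≤ Fil (Φ.ratEq ℚ) Φ.n m ν) ∧
    -- 1: `F⁰` is everything, `F¹` is the part of degree zero, `F²` is the part of degree zero which
    -- is killed by all morphisms to a curve of the family (the kernel of the Albanese map)
    (∀ m, Fil (Φ.ratEq ℚ) Φ.n m 0 = ⊤) ∧
    (∀ m z, z ∈ Fil (Φ.ratEq ℚ) Φ.n m 1 ↔ (z.sum fun _ c => c) = 0) ∧
    (∀ m z, z ∈ Fil (Φ.ratEq ℚ) Φ.n m 2 ↔ (z.sum fun _ c => c) = 0 ∧
      ∀ m' : S → ℕ, ∑ s, Φ.n s * m' s = 1 → ∀ f : Mor Φ.P Φ.G m m',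
        z.mapDomain (f.app Φ.act) ∈ Φ.ratEq ℚ m') ∧
    -- 2: `F^(dim + 1) = 0`
    (∀ m, Fil (Φ.ratEq ℚ) Φ.n m (∑ s, Φ.n s * m s + 1) = Φ.ratEq ℚ m) ∧
    -- 3: correspondences respect the filtration
    (∀ m m' ν (γ : Mor Φ.P Φ.G m m' →₀ ℚ),
      (Fil (Φ.ratEq ℚ) Φ.n m ν).map (pushM Φ.act γ) ≤ Fil (Φ.ratEq ℚ) Φ.n m' ν) ∧
    -- 4: a correspondence which is zero on the holomorphic `ν`-forms is zero on `gr^ν`
    (∀ m m' ν (γ : Mor Φ.P Φ.G m m' →₀ ℚ), Φ.KillsNuForms γ ν →
      (Fil (Φ.ratEq ℚ) Φ.n m ν).map (pushM Φ.act γ) ≤ Fil (Φ.ratEq ℚ) Φ.n m' (ν + 1)) := by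
  have hd : ∀ s, NeZero (Φ.d s) := fun s => ⟨by
    have h1 := (h s).dim
    have h2 := ((h s).weights ⟨0, by omega⟩).2
    omega⟩
  have hpos : ∀ s j, 0 < w s j := fun s j =>
    Nat.pos_of_dvd_of_pos ((h s).weights j).1 (Nat.pos_of_ne_zero (NeZero.ne _))
  refine conditions ⟨fun s => (h s).dim.1, fun s => ?_, ?_, ?_⟩
  · have h1 := (h s).dim
    omega
  · refine BBQ.chars_general w (fun s => (h s).weights) (fun s => (h s).group)
      (fun s => (h s).bound) (fun s => ?_) ?_ (fun s => ?_)
    · rw [WBP.sum_max (hpos s)]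
      have h1 := (h s).ones
      rcases max_cases 1 (Finset.univ.filter fun j => w s j = 1).card with h2 | h2 <;> omega
    · have hS : ∀ s, (Φ.r s * Φ.d s ≤ ∑ j, w s j ∨ Even (Φ.d s) ∨
          Φ.r s * (Φ.d s + 1) < ∑ j, max 2 (w s j)) ∨ Special Φ s (w s) := by
        intro s
        rw [WBP.sum_max (hpos s), ← Nat.not_odd_iff_even]
        by_contra hcon
        push Not at hcon
        refine hcon.2 ⟨hcon.1.2.1, hcon.1.1, ?_⟩
        have h1 := hcon.1.2.2
        rw [Nat.mul_succ] at h1
        exact h1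
      intro s s'
      rcases hS s with h1 | h1
      · exact Or.inl h1
      rcases hS s' with h2 | h2
      · exact Or.inr (Or.inl h2)
      exact Or.inr (Or.inr ⟨h3 s s' h1 h2, h3 s' s h2 h1⟩)
    · have h1 := (h s).dim
      exact WBP.exists_division (h s).bound (by omega) (h s).parts
  · intro s a _ t b hT p hp q hq
    exact swap_of_minors Φ s (h s).dim.2.2 (h s).smooth a t b hT hp hq

end Pool.Agent.Results.MP_08891c_ag.ProductsOfQuotients
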