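import Pool.Agent.QRT.Main

/-!
# The zero-cycles of smooth quartic surfaces are finite-dimensional

For every smooth quartic surface `X` in the projective space of dimension three over an algebraically
closed field `k` of characteristic zero there is `N` such that for all `n ≥ N` and all zero-cycles
`z 0, …, z (n - 1)` of degree zero on `X` the cycle `∑ τ, sgn(τ) z (τ 0) × ⋯ × z (τ (n - 1))` is
rationally equivalent to zero on `X ^ n` (with rational coefficients): `Λ ^ n CH₀(X)₀ = 0`, Kimura's
finiteness for zero-cycles. These K3 surfaces depend on 19 parameters, and the Picard number of the
general one is `1`.

Proof. (1) Let `F` be the quartic form. The plane section `w = 0` of
`x² y² + y² z² + x² z² + w (x³ + y³ + z³)` has three double points at independent points. There are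
planes over the algebraic closure of `k(t)` such that their sections with `F₀ + τ F = 0` have three
double points, `τ` not constant (nine equations, ten unknowns). These sections are rational curves. At
a pole of `τ` the limit is a plane section of `X`; the limit of a rational curve is a chain of
rational curves (Newton polygon), so all points of `X` in this plane are equivalent.
(2) The plane section has the equation `c Q² + u Q L + u² M = 0`, `Q` is a binary quadratic form (two
double points on the line `u = 0`, which may be infinitely near). The existence of such an equation
is a system of six equations for seven unknowns, so there is a curve of such planes through the
given one, or the section is a cone; in this case we use the planes through a line of `X`.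
(3) So `X` is covered by the plane sections of a curve of planes, each of them a double covering of
the line with four branch points. The sum of the four points of a line section of `X` is constant in
`CH₀(X)`, so only the differences of conjugate points matter; they are images of points of an elliptic
curve over the function field of the curve of planes (or the double covering is rational, and they
are zero).
(4) If the `j`-invariant is not constant then the alternating products vanish by the theorem on
families of elliptic curves in `Pool/Agent/GT`. If it is constant then the points of the elliptic
curve give homomorphisms from a fixed elliptic curve which depend on the point of the base curve; they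
vanish in one plane by (1), and their alternating products vanish because the products of
homomorphisms of this kind are symmetric in the points of the elliptic curve.
-/

set_option autoImplicit false

namespace Pool.Agent.Results.MP_08891c_ag.Quartics

open Pool.Agent.GT

/-- **Zero-cycles on smooth quartic surfaces.** `F` is a quartic form in four variables, such that its
partial derivatives have no common zero but the origin, `X` is the surface `F = 0`. The alternating
sums of the exterior products of sufficiently many zero-cycles of degree zero on `X` are rationally
equivalent to zero. -/
theorem result {k : Type} [Field k] [IsAlgClosed k] [CharZero k] {F : MvPolynomial (Fin 4) k}
    (hF : F.IsHomogeneous 4)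
    (hns : ∀ x : Fin 4 → k, (∀ i, MvPolynomial.eval x (MvPolynomial.pderiv i F) = 0) → x = 0) :
    ∃ N : ℕ, ∀ n ≥ N, ∀ z : Fin n → (Pt (m := 3) {F} k →₀ ℚ),
      (∀ j, ((z j).sum fun _ a => a) = 0) →
      ∑ τ : Equiv.Perm (Fin n), ((Equiv.Perm.sign τ : ℤˣ) : ℤ) • ext (fun j => z (τ j)) ∈
        Rat (m := 3) {F} (Fin n) :=
  Pool.Agent.QRT.main ⟨hF, hns⟩

end Pool.Agent.Results.MP_08891c_ag.Quartics
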