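import Mathlib
import Pool.Agent.WBP.ThmH
import Pool.Agent.VGen.HasSwap

/-!
# A Bloch-Beilinson filtration on the zero-cycles of all powers of weighted diagonal complete
intersections

`X` is a smooth complete intersection of dimension `n ≥ 1` of `r` diagonal hypersurfaces
`∑ j, c s j * x j ^ d = 0`, `s < r`, in the complex projective space with `N = n + r + 1` homogeneous
coordinates (it is smooth if all `r × r` minors of `c` are not zero). The weights `w j < d` divide
`d`, and `Y` is the quotient of `X` by the group of the automorphisms `x ↦ (ζ j * x j)_j` with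
`ζ j ^ w j = 1`. So the coordinates `y j = x j ^ w j` embed `Y` as the complete intersection
`∑ j, c s j * y j ^ (d / w j) = 0` in the weighted projective space `ℙ(w)` (and `Y = X` if all
weights are `1`). Let `k = r d - ∑ w j`. We assume that `k + w j < d` for all `j`, and that `k ≤ 0` or
`k` is less than the number of the weights `1`. If `r > 1` and the weights are not all `1` then we
also assume that every sequence of positive multiples of the weights with sum `r d` can be divided
into `r` parts with sum `d`.

For all `m` let `F^ν CH₀(Y ^ m)_ℚ` be generated by the products of `m` zero-cycles on `Y` of which at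
least `ν / n` have degree zero. This filtration has the properties 1-4 of a Bloch-Beilinson
filtration for all correspondences which are combinations of morphisms `Y ^ m → Y ^ m'` with
components constant or a factor followed by a diagonal automorphism of `Y`.
-/

set_option autoImplicit false

namespace Pool.Agent.Results.MP_08891c_ag.WeightedPowers

open Pool.Agent.GBB Pool.Agent.WBP Pool.Agent.DCI57
open scoped LinearAlgebra.Projectivization

theorem result (d n r : ℕ) (hn : 1 ≤ n) (hr : 1 ≤ r)
    -- the equations
    (c : Fin r → Fin (n + r + 1) → ℂ)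
    (hc : ∀ f : Fin r → Fin (n + r + 1), Function.Injective f →
      (Matrix.of fun i s => c i (f s)).det ≠ 0)
    (X : Set (ℙ ℂ (Fin (n + r + 1) → ℂ))) (hX : X = Diag d c)
    -- the weights
    (w : Fin (n + r + 1) → ℕ) (hw : ∀ j, w j ∣ d ∧ w j < d)
    -- `k + w j < d`, and `k ≤ 0` or `k < #{j | w j = 1}`, where `k = r * d - ∑ j, w j`
    (hk : ∀ j, r * d + w j < ∑ j, w j + d)
    (hk' : r * d < ∑ j, w j + max 1 (Finset.univ.filter fun j => w j = 1).card)
    -- if `r > 1` and the weights are not all `1`: divisions into parts with sum `d`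
    (hB : r = 1 ∨ (∀ j, w j = 1) ∨ ∀ b : Fin (n + r + 1) → ℕ, (∀ j, 0 < b j) →
      (∀ j, w j ∣ b j) → ∑ j, b j = r * d →
        ∃ B : Fin (n + r + 1) → Fin r, ∀ s, ∑ j with B j = s, b j = d) :
    -- a decreasing filtration of the zero-cycles on `Y ^ m` modulo rational equivalence
    (∀ m ν, ratEqH d w X m ≤ FilH n d w X m ν ∧ FilH n d w X m (ν + 1) ≤ FilH n d w X m ν) ∧
    -- 1: `F⁰` is everything, `F¹` is the part of degree zero, and `F¹ = F²` if `n ≥ 2`
    (∀ m z, z ∈ FilH n d w X m 0 ↔ ∀ p ∈ z.support, OnX X p) ∧
    (∀ m z, z ∈ FilH n d w X m 1 ↔ (∀ p ∈ z.support, OnX X p) ∧ (z.sum fun _ c => c) = 0) ∧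
    (2 ≤ n → ∀ m, FilH n d w X m 2 = FilH n d w X m 1) ∧
    -- 2: `F^(dim + 1) = 0`
    (∀ m, FilH n d w X m (n * m + 1) = ratEqH d w X m) ∧
    -- 3: correspondences respect the filtration
    (∀ m m' ν (γ : Mor d m m' X →₀ ℚ), (FilH n d w X m ν).map (pushM γ) ≤ FilH n d w X m' ν) ∧
    -- 4: a correspondence which is zero on the holomorphic `ν`-forms is zero on `gr^ν`
    (∀ m m' ν (γ : Mor d m m' X →₀ ℚ), KillsNuFormsH n r w γ ν →
      (FilH n d w X m ν).map (pushM γ) ≤ FilH n d w X m' (ν + 1)) := by
  subst hX
  have hd : d ≠ 0 := by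
    rintro rfl
    exact absurd (hw 0).2 (Nat.not_lt_zero _)
  have : NeZero d := ⟨hd⟩
  have hwpos : ∀ j, 0 < w j := fun j => Nat.pos_of_dvd_of_pos (hw j).1 (Nat.pos_of_ne_zero hd)
  refine conditionsH hn (by omega) (charHyp c hw hk ?_ (exists_division hk (by omega) hB))
    (hasSwap_gen rfl hc)
  rw [sum_max hwpos]
  rcases max_cases 1 (Finset.univ.filter fun j => w j = 1).card with h | h <;> omega

end Pool.Agent.Results.MP_08891c_ag.WeightedPowers
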